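import Pool.Agent.W669.HD.Stm
import Pool.Agent.W556.StF.Det

/-!
# Products of two symmetric bilinear forms with nonpositive sectional values
-/

set_option autoImplicit false

namespace Pool.Agent.R537.LK

open Pool.Agent.W669.HD Matrix Finset

section defs

variable {V : Type*}

/-- The Kulkarni–Nomizu product of two symmetric forms. -/
def kn (a b : V → V → ℝ) (x y z w : V) : ℝ :=
  a x z * b y w + a y w * b x z - a x w * b y z - a y z * b x w

theorem kn_comm (a b : V → V → ℝ) (x y z w : V) : kn a b x y z w = kn b a x y z w := by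
  simp only [kn]; ring

end defs

section diag

variable {V : Type*} [NormedAddCommGroup V] [InnerProductSpace ℝ V]
  {ι : Type*} [Fintype ι] [DecidableEq ι]

/-- Simultaneous diagonalisation. -/
theorem simul (e : OrthonormalBasis ι ℝ V) (p a : V →ₗ[ℝ] V →ₗ[ℝ] ℝ)
    (hp : ∀ x y, p x y = p y x) (ha : ∀ x y, a x y = a y x)
    (hpos : ∀ x, x ≠ 0 → 0 < p x x) :
    ∃ (f : ι → V → ℝ) (v : ι → V) (μ : ι → ℝ),
      (∀ k l, f k (v l) = if k = l then 1 else 0) ∧
      (∀ x y, p x y = ∑ k, f k x * f k y) ∧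
      (∀ x y, a x y = ∑ k, μ k * (f k x * f k y)) := by
  classical
  set G : Matrix ι ι ℝ := Matrix.of fun i j => p (e i) (e j) with hG
  set Q : Matrix ι ι ℝ := Matrix.of fun i j => a (e i) (e j) with hQ
  have hGH : G.IsHermitian := by
    ext i j
    simp only [hG, conjTranspose_apply, of_apply, star_trivial]
    exact hp _ _
  have hQH : Q.IsHermitian := by
    ext i j
    simp only [hQ, conjTranspose_apply, of_apply, star_trivial]
    exact ha _ _
  have hval : ∀ (B : V →ₗ[ℝ] V →ₗ[ℝ] ℝ) (c d : ι → ℝ),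
      B (∑ i, c i • e i) (∑ j, d j • e j) = ∑ i, ∑ j, c i * d j * B (e i) (e j) := by
    intro B c d
    simp only [map_sum, LinearMap.sum_apply, map_smul, LinearMap.smul_apply, smul_eq_mul,
      Finset.mul_sum]
    rw [Finset.sum_comm]
    refine Finset.sum_congr rfl fun i _ => Finset.sum_congr rfl fun j _ => ?_
    ring
  have hGP : G.PosDef := by
    refine Matrix.PosDef.of_dotProduct_mulVec_pos hGH fun c hc => ?_
    have h1 : (∑ i, c i • e i) ≠ 0 := by
      intro h0
      apply hc
      have := Fintype.linearIndependent_iff.mp e.toBasis.linearIndependent c (by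
        simpa using h0)
      funext i
      exact this i
    have h2 := hpos _ h1
    rw [hval] at h2
    have h3 : star c ⬝ᵥ G *ᵥ c = ∑ i, ∑ j, c i * c j * p (e i) (e j) := by
      simp only [dotProduct, mulVec, hG, of_apply, Pi.star_apply, star_trivial, Finset.mul_sum]
      refine Finset.sum_congr rfl fun i _ => Finset.sum_congr rfl fun j _ => ?_
      ring
    rw [h3]
    exact h2
  obtain ⟨C, μ, h1, h2⟩ := Pool.Agent.W556.StF.simul_diag G Q hGP hQH
  set v : ι → V := fun l => ∑ i, C i l • e i with hv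
  have hpv : ∀ k l, p (v k) (v l) = if k = l then 1 else 0 := by
    intro k l
    have h3 := congrArg (fun M : Matrix ι ι ℝ => M k l) h1
    simp only [mul_apply, conjTranspose_apply, star_trivial, one_apply, hG, of_apply] at h3
    rw [← h3, hv]
    simp only
    rw [hval, Finset.sum_comm]
    refine Finset.sum_congr rfl fun j _ => ?_
    rw [Finset.sum_mul]
    refine Finset.sum_congr rfl fun i _ => ?_
    ring
  have hav : ∀ k l, a (v k) (v l) = if k = l then μ k else 0 := by
    intro k l
    have h3 := congrArg (fun M : Matrix ι ι ℝ => M k l) h2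
    simp only [mul_apply, conjTranspose_apply, star_trivial, diagonal_apply, hQ, of_apply] at h3
    rw [← h3, hv]
    simp only
    rw [hval, Finset.sum_comm]
    refine Finset.sum_congr rfl fun j _ => ?_
    rw [Finset.sum_mul]
    refine Finset.sum_congr rfl fun i _ => ?_
    ring
  have hCC : C * (Cᴴ * G) = 1 := mul_eq_one_comm.mp h1
  have hex : ∀ x : V, x = ∑ k, p (v k) x • v k := by
    intro x
    have h4 : ∀ j, ∑ k, p (v k) (e j) • v k = e j := by
      intro j
      have h5 : ∀ k, p (v k) (e j) = (Cᴴ * G) k j := by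
        intro k
        simp only [hv, map_sum, LinearMap.sum_apply, map_smul, LinearMap.smul_apply, smul_eq_mul,
          mul_apply, conjTranspose_apply, star_trivial, hG, of_apply]
      simp only [h5]
      simp only [hv, Finset.smul_sum, smul_smul]
      rw [Finset.sum_comm]
      simp only [← Finset.sum_smul]
      have h6 : ∀ i, ∑ k, (Cᴴ * G) k j * C i k = if i = j then 1 else 0 := by
        intro i
        have h7 := congrArg (fun M : Matrix ι ι ℝ => M i j) hCC
        simp only [one_apply] at h7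
        rw [← h7, mul_apply]
        exact Finset.sum_congr rfl fun k _ => mul_comm _ _
      simp only [h6, ite_smul, one_smul, zero_smul, Finset.sum_ite_eq', Finset.mem_univ, if_true]
    have h8 : ∀ c : ι → ℝ, ∑ k, p (v k) (∑ j, c j • e j) • v k = ∑ j, c j • e j := by
      intro c
      simp only [map_sum, map_smul, smul_eq_mul, Finset.sum_smul]
      rw [Finset.sum_comm]
      refine Finset.sum_congr rfl fun j _ => ?_
      simp only [mul_smul, ← Finset.smul_sum]
      rw [h4]
    have h9 := h8 (fun j => inner ℝ (e j) x)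
    rw [e.sum_repr' x] at h9
    exact h9.symm
  refine ⟨fun k x => p (v k) x, v, μ, hpv, ?_, ?_⟩
  · intro x y
    conv_lhs => rw [hex x]
    simp only [map_sum, LinearMap.sum_apply, map_smul, LinearMap.smul_apply, smul_eq_mul]
  · intro x y
    conv_lhs => rw [hex x, hex y]
    simp only [map_sum, LinearMap.sum_apply, map_smul, LinearMap.smul_apply, smul_eq_mul, hav,
      mul_ite, mul_zero, Finset.sum_ite_eq', Finset.mem_univ, if_true]
    refine Finset.sum_congr rfl fun k _ => ?_
    ring

omit [DecidableEq ι] in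
theorem expand (X Y Z W μ : ι → ℝ) (α β γ : ℝ) :
    ∑ k, ∑ l, (2 * α + β * (μ k + μ l) + 2 * γ * (μ k * μ l)) / 2 *
      ((X k * Y l - X l * Y k) * (Z k * W l - Z l * W k)) =
    α * (2 * ((∑ k, X k * Z k) * (∑ k, Y k * W k) - (∑ k, X k * W k) * (∑ k, Y k * Z k))) +
    β * ((∑ k, X k * Z k) * (∑ k, μ k * (Y k * W k)) + (∑ k, Y k * W k) * (∑ k, μ k * (X k * Z k)) -
      (∑ k, X k * W k) * (∑ k, μ k * (Y k * Z k)) - (∑ k, Y k * Z k) * (∑ k, μ k * (X k * W k))) +
    γ * (2 * ((∑ k, μ k * (X k * Z k)) * (∑ k, μ k * (Y k * W k)) -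
      (∑ k, μ k * (X k * W k)) * (∑ k, μ k * (Y k * Z k)))) := by
  have h1 : ∀ k l, (2 * α + β * (μ k + μ l) + 2 * γ * (μ k * μ l)) / 2 *
      ((X k * Y l - X l * Y k) * (Z k * W l - Z l * W k)) =
      α * ((X k * Z k) * (Y l * W l)) - α * ((X k * W k) * (Y l * Z l)) -
      α * ((Y k * Z k) * (X l * W l)) + α * ((Y k * W k) * (X l * Z l)) +
      β / 2 * ((μ k * (X k * Z k)) * (Y l * W l)) - β / 2 * ((μ k * (X k * W k)) * (Y l * Z l)) -
      β / 2 * ((μ k * (Y k * Z k)) * (X l * W l)) + β / 2 * ((μ k * (Y k * W k)) * (X l * Z l)) +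
      β / 2 * ((X k * Z k) * (μ l * (Y l * W l))) - β / 2 * ((X k * W k) * (μ l * (Y l * Z l))) -
      β / 2 * ((Y k * Z k) * (μ l * (X l * W l))) + β / 2 * ((Y k * W k) * (μ l * (X l * Z l))) +
      γ * ((μ k * (X k * Z k)) * (μ l * (Y l * W l))) -
      γ * ((μ k * (X k * W k)) * (μ l * (Y l * Z l))) -
      γ * ((μ k * (Y k * Z k)) * (μ l * (X l * W l))) +
      γ * ((μ k * (Y k * W k)) * (μ l * (X l * Z l))) := by
    intro k l; ring
  have h2 : ∀ (c : ℝ) (F G : ι → ℝ), ∑ k, ∑ l, c * (F k * G l) = c * ((∑ k, F k) * ∑ l, G l) := by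
    intro c F G
    rw [Finset.sum_mul_sum, Finset.mul_sum]
    exact Finset.sum_congr rfl fun k _ => (Finset.mul_sum _ _ _).symm
  simp only [h1, Finset.sum_add_distrib, Finset.sum_sub_distrib, h2]
  ring

/-- **Diagonal case**: a combination of the products of a positive definite form and a second
form is nonnegative as soon as its sectional values are. -/
theorem diag_op (e : OrthonormalBasis ι ℝ V) (p a : V →ₗ[ℝ] V →ₗ[ℝ] ℝ)
    (hp : ∀ x y, p x y = p y x) (ha : ∀ x y, a x y = a y x)
    (hpos : ∀ x, x ≠ 0 → 0 < p x x) (α β γ : ℝ)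
    (hsec : ∀ x y, 0 ≤ α * kn (fun x y => p x y) (fun x y => p x y) x y x y +
      β * kn (fun x y => p x y) (fun x y => a x y) x y x y +
      γ * kn (fun x y => a x y) (fun x y => a x y) x y x y) :
    OpNonneg fun x y z w => α * kn (fun x y => p x y) (fun x y => p x y) x y z w +
      β * kn (fun x y => p x y) (fun x y => a x y) x y z w +
      γ * kn (fun x y => a x y) (fun x y => a x y) x y z w := by
  classical
  obtain ⟨f, v, μ, hf, hpf, haf⟩ := simul e p a hp ha hpos
  have hM : ∀ k l, k ≠ l → 0 ≤ 2 * α + β * (μ k + μ l) + 2 * γ * (μ k * μ l) := by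
    intro k l hkl
    have h1 := hsec (v k) (v l)
    simp only [kn, hpf, haf, hf, mul_ite, mul_one, mul_zero, ite_mul, one_mul, zero_mul,
      Finset.sum_ite_eq', Finset.mem_univ, if_true, hkl, hkl.symm] at h1
    simp only [if_false] at h1
    nlinarith [h1]
  have hT : ∀ x y z w, α * kn (fun x y => p x y) (fun x y => p x y) x y z w +
      β * kn (fun x y => p x y) (fun x y => a x y) x y z w +
      γ * kn (fun x y => a x y) (fun x y => a x y) x y z w =
      ∑ k, ∑ l, (2 * α + β * (μ k + μ l) + 2 * γ * (μ k * μ l)) / 2 *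
        ((f k x * f l y - f l x * f k y) * (f k z * f l w - f l z * f k w)) := by
    intro x y z w
    rw [expand (fun k => f k x) (fun k => f k y) (fun k => f k z) (fun k => f k w) μ]
    simp only [kn, hpf, haf]
    ring
  intro n x y
  simp only [hT]
  have h3 : ∑ a, ∑ b, ∑ k, ∑ l, (2 * α + β * (μ k + μ l) + 2 * γ * (μ k * μ l)) / 2 *
      ((f k (x a) * f l (y a) - f l (x a) * f k (y a)) *
        (f k (x b) * f l (y b) - f l (x b) * f k (y b))) =
      ∑ k, ∑ l, (2 * α + β * (μ k + μ l) + 2 * γ * (μ k * μ l)) / 2 *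
        (∑ a, (f k (x a) * f l (y a) - f l (x a) * f k (y a))) ^ 2 := by
    have h5 : ∀ k l, (2 * α + β * (μ k + μ l) + 2 * γ * (μ k * μ l)) / 2 *
        (∑ a, (f k (x a) * f l (y a) - f l (x a) * f k (y a))) ^ 2 =
        ∑ a, ∑ b, (2 * α + β * (μ k + μ l) + 2 * γ * (μ k * μ l)) / 2 *
          ((f k (x a) * f l (y a) - f l (x a) * f k (y a)) *
          (f k (x b) * f l (y b) - f l (x b) * f k (y b))) := by
      intro k l
      rw [sq, Finset.sum_mul_sum, Finset.mul_sum]
      exact Finset.sum_congr rfl fun a _ => Finset.mul_sum _ _ _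
    simp only [h5]
    calc _ = ∑ a, ∑ k, ∑ b, ∑ l, (2 * α + β * (μ k + μ l) + 2 * γ * (μ k * μ l)) / 2 *
          ((f k (x a) * f l (y a) - f l (x a) * f k (y a)) *
          (f k (x b) * f l (y b) - f l (x b) * f k (y b))) :=
          Finset.sum_congr rfl fun a _ => Finset.sum_comm
      _ = ∑ k, ∑ a, ∑ b, ∑ l, (2 * α + β * (μ k + μ l) + 2 * γ * (μ k * μ l)) / 2 *
          ((f k (x a) * f l (y a) - f l (x a) * f k (y a)) *
          (f k (x b) * f l (y b) - f l (x b) * f k (y b))) := Finset.sum_comm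
      _ = ∑ k, ∑ a, ∑ l, ∑ b, (2 * α + β * (μ k + μ l) + 2 * γ * (μ k * μ l)) / 2 *
          ((f k (x a) * f l (y a) - f l (x a) * f k (y a)) *
          (f k (x b) * f l (y b) - f l (x b) * f k (y b))) :=
          Finset.sum_congr rfl fun k _ => Finset.sum_congr rfl fun a _ => Finset.sum_comm
      _ = _ := Finset.sum_congr rfl fun k _ => Finset.sum_comm
  rw [h3]
  refine Finset.sum_nonneg fun k _ => Finset.sum_nonneg fun l _ => ?_
  rcases eq_or_ne k l with h | h
  · subst h
    have h4 : ∑ a, (f k (x a) * f k (y a) - f k (x a) * f k (y a)) = 0 :=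
      Finset.sum_eq_zero fun a _ => by ring
    rw [h4]
    simp
  · have := hM k l h
    exact mul_nonneg (by linarith) (sq_nonneg _)

end diag

end Pool.Agent.R537.LK
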