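import Pool.Agent.R537.LK.Pos
import Pool.Agent.Y195.HF.Main

/-!
# The Hopf sign for sums of curvature tensors of codimension two type
-/

set_option autoImplicit false

namespace Pool.Agent.R537.LK

open Pool.Agent.W666.GB Pool.Agent.W669.HD Pool.Agent.Y195.HF Finset MeasureTheory

variable {V : Type} [NormedAddCommGroup V] [InnerProductSpace ℝ V]

/-- symmetric bilinear forms -/
structure SymForm (a : V → V → ℝ) : Prop where
  symm : ∀ x y, a x y = a y x
  add : ∀ x x' y, a (x + x') y = a x y + a x' y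
  smul : ∀ (t : ℝ) (x y : V), a (t • x) y = t * a x y

/-- The tensor which the Gauss equation gives for a second fundamental form `h 0 ξ₀ + h 1 ξ₁` with
values in a plane (the normal space) in which the inner products of `ξ₀, ξ₁` are `q i j`; these may
have any signature. -/
def gaussQ (q : Fin 2 → Fin 2 → ℝ) (h : Fin 2 → V → V → ℝ) (x y z w : V) : ℝ :=
  ∑ i, ∑ j, q i j * (h i x z * h j y w - h i x w * h j y z)

/-- the bilinear map of a symmetric form -/
def SymForm.map {a : V → V → ℝ} (h : SymForm a) : V →ₗ[ℝ] V →ₗ[ℝ] ℝ :=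
  LinearMap.mk₂ ℝ a h.add (fun t x y => by rw [h.smul, smul_eq_mul])
    (fun x y y' => by rw [h.symm, h.add, h.symm y, h.symm y'])
    (fun t x y => by rw [h.symm, h.smul, h.symm y, smul_eq_mul])

theorem SymForm.map_apply {a : V → V → ℝ} (h : SymForm a) (x y : V) : h.map x y = a x y := rfl

omit [NormedAddCommGroup V] [InnerProductSpace ℝ V] in
theorem gaussQ_eq {q : Fin 2 → Fin 2 → ℝ} (hq : ∀ i j, q i j = q j i) (h : Fin 2 → V → V → ℝ)
    (x y z w : V) : gaussQ q h x y z w = gq (q 0 0) (q 0 1) (q 1 1) (h 0) (h 1) x y z w := by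
  simp only [gaussQ, gq, Fin.sum_univ_two]
  rw [hq 1 0]
  ring

theorem gaussQ_curv {q : Fin 2 → Fin 2 → ℝ} (hq : ∀ i j, q i j = q j i) {h : Fin 2 → V → V → ℝ}
    (hh : ∀ i, SymForm (h i)) : AlgCurv (gaussQ q h) where
  add x x' y z w := by
    simp only [gaussQ_eq hq, gq, (hh _).add]; ring
  smul t x y z w := by
    simp only [gaussQ_eq hq, gq, (hh _).smul]; ring
  anti x y z w := by
    simp only [gaussQ_eq hq, gq]; ring
  pair x y z w := by
    simp only [gaussQ_eq hq, gq]
    rw [(hh 0).symm z x, (hh 0).symm w y, (hh 0).symm z y, (hh 0).symm w x,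
      (hh 1).symm z x, (hh 1).symm w y, (hh 1).symm z y, (hh 1).symm w x]
    ring
  bianchi x y z w := by
    simp only [gaussQ_eq hq, gq]
    rw [(hh 0).symm z x, (hh 0).symm y x, (hh 0).symm z y,
      (hh 1).symm z x, (hh 1).symm y x, (hh 1).symm z y]
    ring

/-- **Codimension two, any signature.** -/
theorem gaussQ_op {ι : Type*} [Fintype ι] [DecidableEq ι] (e : OrthonormalBasis ι ℝ V)
    {q : Fin 2 → Fin 2 → ℝ} (hq : ∀ i j, q i j = q j i) {h : Fin 2 → V → V → ℝ}
    (hh : ∀ i, SymForm (h i)) (hK : ∀ x y, gaussQ q h x y x y ≤ 0) :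
    OpNonneg (negT (gaussQ q h)) := by
  have h1 := codim_two_op e (a := (hh 0).map) (b := (hh 1).map)
    (fun x y => (hh 0).symm x y) (fun x y => (hh 1).symm x y) (q 0 0) (q 0 1) (q 1 1)
    (fun x y => by
      have := hK x y
      rw [gaussQ_eq hq] at this
      exact this)
  refine op_congr (fun x y z w => ?_) h1
  rw [negT, gaussQ_eq hq]
  rfl

theorem gaussQ_iff {ι : Type*} [Fintype ι] [DecidableEq ι] (e : OrthonormalBasis ι ℝ V)
    {q : Fin 2 → Fin 2 → ℝ} (hq : ∀ i j, q i j = q j i) {h : Fin 2 → V → V → ℝ}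
    (hh : ∀ i, SymForm (h i)) :
    (∀ x y, gaussQ q h x y x y ≤ 0) ↔ OpNonneg (negT (gaussQ q h)) := by
  refine ⟨gaussQ_op e hq hh, fun hO x y => ?_⟩
  have := hO 1 (fun _ => x) (fun _ => y)
  simp only [Finset.univ_unique, Finset.sum_const, Finset.card_singleton, one_smul, negT] at this
  linarith

theorem op_sum {k : ℕ} {K : Fin k → V → V → V → V → ℝ} (hK : ∀ s, OpNonneg (K s)) :
    OpNonneg fun x y z w => ∑ s, K s x y z w := by
  intro n x y
  have h1 : ∑ a, ∑ b, ∑ s, K s (x a) (y a) (x b) (y b) =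
      ∑ s, ∑ a, ∑ b, K s (x a) (y a) (x b) (y b) :=
    (Finset.sum_congr rfl fun a _ => Finset.sum_comm).trans Finset.sum_comm
  rw [h1]
  exact Finset.sum_nonneg fun s _ => hK s n x y

/-- The class of tensors: `R` is the sum of a tensor with `TwoSkew δ` (for instance one with
curvature operator at most `-δ`) and of tensors of codimension two type, each with nonpositive
sectional curvatures. -/
def CodimTwoType (δ : ℝ) (R : V → V → V → V → ℝ) : Prop :=
  ∃ (R₀ : V → V → V → V → ℝ) (k : ℕ) (q : Fin k → Fin 2 → Fin 2 → ℝ)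
    (h : Fin k → Fin 2 → V → V → ℝ), TwoSkew δ R₀ ∧ (∀ s i j, q s i j = q s j i) ∧
    (∀ s i, SymForm (h s i)) ∧ (∀ s x y, gaussQ (q s) (h s) x y x y ≤ 0) ∧
    ∀ x y z w, R x y z w = R₀ x y z w + ∑ s, gaussQ (q s) (h s) x y z w

theorem CodimTwoType.twoSkew {ι : Type*} [Fintype ι] [DecidableEq ι]
    (e : OrthonormalBasis ι ℝ V) {δ : ℝ} {R : V → V → V → V → ℝ} (h : CodimTwoType δ R) :
    TwoSkew δ R := by
  obtain ⟨R₀, k, q, h, ⟨A, B, hA, hB, hO⟩, hq, hh, hK, hR⟩ := h
  refine ⟨A, B, hA, hB, op_congr (fun x y z w => ?_)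
    (op_add hO (op_sum fun s => gaussQ_op e (hq s) (hh s) (hK s)))⟩
  simp only [negT, addT, hR, Finset.sum_neg_distrib]
  ring

theorem type_bound {m : ℕ} (e : OrthonormalBasis (Fin m × Bool) ℝ V) {R : V → V → V → V → ℝ}
    {δ : ℝ} (hR : AlgCurv R) (hδ : 0 ≤ δ) (h : CodimTwoType δ R) :
    roundGB m δ ≤ (-1) ^ m * gbc e R :=
  two_skew e hR hδ (h.twoSkew e)

omit [NormedAddCommGroup V] [InnerProductSpace ℝ V] in
theorem zero_skew {V : Type} [NormedAddCommGroup V] [InnerProductSpace ℝ V] :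
    SkewForm (fun _ _ : V => (0 : ℝ)) := ⟨by simp, by simp, by simp⟩

theorem opNonneg_zero' : OpNonneg (fun _ _ _ _ : V => (0 : ℝ)) := fun n x y => by simp

/-- a curvature operator at most `-δ` -/
theorem op_twoSkew {R : V → V → V → V → ℝ} {δ : ℝ}
    (h : OpNonneg (negT (addT R fun x y z w => δ * unitT x y z w))) : TwoSkew δ R := by
  refine ⟨fun _ _ => 0, fun _ _ => 0, zero_skew, zero_skew, op_congr (fun x y z w => ?_) h⟩
  simp only [negT, addT, skewCurv]
  ring

/-- submanifolds of codimension two of a space form of curvature `-c` -/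
theorem form_type {q : Fin 2 → Fin 2 → ℝ} (hq : ∀ i j, q i j = q j i) {h : Fin 2 → V → V → ℝ}
    (hh : ∀ i, SymForm (h i)) (hK : ∀ x y, gaussQ q h x y x y ≤ 0) (c : ℝ) :
    CodimTwoType c fun x y z w => gaussQ q h x y z w - c * unitT x y z w := by
  refine ⟨fun x y z w => -(c * unitT x y z w), 1, fun _ => q, fun _ => h, op_twoSkew ?_,
    fun _ => hq, fun _ => hh, fun _ => hK, fun x y z w => ?_⟩
  · refine op_congr (fun x y z w => ?_) opNonneg_zero'
    simp only [negT, addT]; ring
  · simp only [Finset.univ_unique, Finset.sum_const, Finset.card_singleton, one_smul]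
    ring

theorem unit_curv : AlgCurv (unitT : V → V → V → V → ℝ) where
  add x x' y z w := by simp only [unitT, inner_add_left]; ring
  smul t x y z w := by simp only [unitT, inner_smul_left, conj_trivial]; ring
  anti x y z w := by simp only [unitT]; ring
  pair x y z w := by
    simp only [unitT]
    rw [real_inner_comm z x, real_inner_comm w y, real_inner_comm z y, real_inner_comm w x]; ring
  bianchi x y z w := by
    simp only [unitT]
    rw [real_inner_comm y x, real_inner_comm z x, real_inner_comm z y]; ring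

theorem form_curv {q : Fin 2 → Fin 2 → ℝ} (hq : ∀ i j, q i j = q j i) {h : Fin 2 → V → V → ℝ}
    (hh : ∀ i, SymForm (h i)) (c : ℝ) :
    AlgCurv fun x y z w => gaussQ q h x y z w - c * unitT x y z w := by
  have h1 := gaussQ_curv hq hh
  have h2 : AlgCurv (unitT : V → V → V → V → ℝ) := unit_curv
  exact
    { add := fun x x' y z w => by rw [h1.add, h2.add]; ring
      smul := fun t x y z w => by rw [h1.smul, h2.smul]; ring
      anti := fun x y z w => by rw [h1.anti, h2.anti]; ring
      pair := fun x y z w => by rw [h1.pair, h2.pair]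
      bianchi := fun x y z w => by
        have e1 := h1.bianchi x y z w
        have e2 := h2.bianchi x y z w
        linear_combination e1 - c * e2 }

theorem form_bound {m : ℕ} (e : OrthonormalBasis (Fin m × Bool) ℝ V) {q : Fin 2 → Fin 2 → ℝ}
    (hq : ∀ i j, q i j = q j i) {h : Fin 2 → V → V → ℝ}
    (hh : ∀ i, SymForm (h i)) (hK : ∀ x y, gaussQ q h x y x y ≤ 0) {c : ℝ} (hc : 0 ≤ c) :
    roundGB m c ≤ (-1) ^ m * gbc e fun x y z w => gaussQ q h x y z w - c * unitT x y z w :=
  type_bound e (form_curv hq hh c) hc (form_type hq hh hK c)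

theorem field_type {m : ℕ} {M : Type} [MeasurableSpace M] (μ : Measure M) (K : CurvField m M)
    (c : M → ℝ) (h : ∀ p, 0 ≤ c p ∧ CodimTwoType (c p) (K.R p)) :
    0 ≤ (-1) ^ m * ∫ p, K.gb p ∂μ ∧ (Integrable K.gb μ →
      ∫ p, roundGB m (c p) ∂μ ≤ (-1) ^ m * ∫ p, K.gb p ∂μ) := by
  have h1 : ∀ p, roundGB m (c p) ≤ (-1) ^ m * K.gb p := fun p =>
    type_bound (K.e p) (K.curv p) (h p).1 (h p).2
  have h0 : ∀ p, 0 ≤ roundGB m (c p) := fun p => Pool.Agent.W669.HD.roundGB_nonneg (h p).1
  rw [← integral_const_mul]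
  refine ⟨integral_nonneg fun p => (h0 p).trans (h1 p), fun hi => ?_⟩
  exact integral_mono_of_nonneg (Filter.Eventually.of_forall h0)
    (hi.const_mul _) (Filter.Eventually.of_forall h1)

end Pool.Agent.R537.LK
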