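import Pool.Agent.R537.LK.Core

/-!
# Two symmetric forms: nonpositive sectional values imply a nonpositive operator
-/

set_option autoImplicit false

namespace Pool.Agent.R537.LK

open Pool.Agent.W669.HD Finset

variable {V : Type*} [NormedAddCommGroup V] [InnerProductSpace ℝ V]
  {ι : Type*} [Fintype ι] [DecidableEq ι]

/-- the product for bilinear maps -/
def kb (a b : V →ₗ[ℝ] V →ₗ[ℝ] ℝ) : V → V → V → V → ℝ :=
  kn (fun x y => a x y) (fun x y => b x y)

/-- symmetric -/
def Sy (a : V →ₗ[ℝ] V →ₗ[ℝ] ℝ) : Prop := ∀ x y, a x y = a y x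

/-- positive semidefinite -/
def Psd (a : V →ₗ[ℝ] V →ₗ[ℝ] ℝ) : Prop := ∀ x, 0 ≤ a x x

theorem kb_def (a b : V →ₗ[ℝ] V →ₗ[ℝ] ℝ) (x y z w : V) : kb a b x y z w =
    a x z * b y w + a y w * b x z - a x w * b y z - a y z * b x w := rfl

theorem kb_sec {a b : V →ₗ[ℝ] V →ₗ[ℝ] ℝ} (ha : Sy a) (hb : Sy b) (x y : V) :
    kb a b x y x y = a x x * b y y + a y y * b x x - 2 * (a x y * b x y) := by
  rw [kb_def, ha y x, hb y x]; ring

theorem op_add {K L : V → V → V → V → ℝ} (hK : OpNonneg K) (hL : OpNonneg L) :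
    OpNonneg fun x y z w => K x y z w + L x y z w := by
  intro n x y
  simp only [Finset.sum_add_distrib]
  exact add_nonneg (hK n x y) (hL n x y)

theorem op_smul {K : V → V → V → V → ℝ} {c : ℝ} (hc : 0 ≤ c) (hK : OpNonneg K) :
    OpNonneg fun x y z w => c * K x y z w := by
  intro n x y
  simp only [← Finset.mul_sum]
  exact mul_nonneg hc (hK n x y)

theorem lim0 {A B C : ℝ} (h : ∀ s : ℝ, 0 < s → 0 ≤ A + s * B + s ^ 2 * C) : 0 ≤ A := by
  by_contra hA
  push Not at hA
  have h1 : 0 < |B| + |C| + 1 := by positivity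
  set s := min 1 (-A / (2 * (|B| + |C| + 1))) with hs
  have h2 : 0 < s := lt_min one_pos (div_pos (by linarith) (by linarith))
  have h3 : s ≤ 1 := min_le_left _ _
  have h4 : s * (2 * (|B| + |C| + 1)) ≤ -A := by
    have := min_le_right 1 (-A / (2 * (|B| + |C| + 1)))
    rw [← hs] at this
    rwa [le_div_iff₀ (by linarith)] at this
  have h5 := h s h2
  have h6 : s * B ≤ s * |B| := mul_le_mul_of_nonneg_left (le_abs_self _) h2.le
  have h7 : s ^ 2 * C ≤ s * |C| := by
    have : s ^ 2 * C ≤ s ^ 2 * |C| := mul_le_mul_of_nonneg_left (le_abs_self _) (by positivity)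
    have h8 : s ^ 2 * |C| ≤ s * |C| := by
      refine mul_le_mul_of_nonneg_right ?_ (abs_nonneg _)
      nlinarith
    linarith
  nlinarith

theorem op_lim {K L N : V → V → V → V → ℝ}
    (h : ∀ s : ℝ, 0 < s → OpNonneg fun x y z w => K x y z w + s * L x y z w + s ^ 2 * N x y z w) :
    OpNonneg K := by
  intro n x y
  refine lim0 (B := ∑ a, ∑ b, L (x a) (y a) (x b) (y b))
    (C := ∑ a, ∑ b, N (x a) (y a) (x b) (y b)) fun s hs => ?_
  have := h s hs n x y
  simp only [Finset.sum_add_distrib, ← Finset.mul_sum] at this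
  exact this

theorem psd_cs {a : V →ₗ[ℝ] V →ₗ[ℝ] ℝ} (ha : Sy a) (hp : Psd a) (x y : V) :
    a x y ^ 2 ≤ a x x * a y y := by
  have h : ∀ t : ℝ, 0 ≤ a y y * (t * t) + 2 * a x y * t + a x x := by
    intro t
    have := hp (x + t • y)
    simp only [map_add, map_smul, LinearMap.add_apply, LinearMap.smul_apply, smul_eq_mul] at this
    rw [ha y x] at this
    nlinarith [this]
  have h1 := discrim_le_zero h
  unfold discrim at h1
  nlinarith [h1]

theorem psd_sec {a b : V →ₗ[ℝ] V →ₗ[ℝ] ℝ} (ha : Sy a) (hb : Sy b) (hpa : Psd a) (hpb : Psd b)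
    (x y : V) : 0 ≤ kb a b x y x y := by
  rw [kb_sec ha hb]
  have h1 := psd_cs ha hpa x y
  have h2 := psd_cs hb hpb x y
  have h3 : (a x y * b x y) ^ 2 ≤ ((a x x * b y y + a y y * b x x) / 2) ^ 2 := by
    have h4 : (a x y * b x y) ^ 2 ≤ (a x x * a y y) * (b x x * b y y) := by
      rw [mul_pow]
      exact mul_le_mul h1 h2 (sq_nonneg _) (mul_nonneg (hpa x) (hpa y))
    nlinarith [sq_nonneg (a x x * b y y - a y y * b x x)]
  have h5 : 0 ≤ (a x x * b y y + a y y * b x x) / 2 := by
    have := mul_nonneg (hpa x) (hpb y)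
    have := mul_nonneg (hpa y) (hpb x)
    linarith
  have h6 := abs_le_of_sq_le_sq h3 h5
  have h7 := (abs_le.mp h6).2
  linarith

/-- the inner product -/
noncomputable def gg (V : Type*) [NormedAddCommGroup V] [InnerProductSpace ℝ V] :
    V →ₗ[ℝ] V →ₗ[ℝ] ℝ := innerₗ V

theorem gg_apply (x y : V) : gg V x y = inner ℝ x y := rfl

theorem gg_sy : Sy (gg V) := fun x y => by
  rw [gg_apply, gg_apply, real_inner_comm]

theorem gg_pos (x : V) (hx : x ≠ 0) : 0 < gg V x x := by
  rw [gg_apply]; exact real_inner_self_pos.mpr hx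

theorem gg_psd : Psd (gg V) := fun x => by rw [gg_apply]; exact real_inner_self_nonneg

theorem op_congr {K L : V → V → V → V → ℝ} (h : ∀ x y z w, K x y z w = L x y z w)
    (hK : OpNonneg K) : OpNonneg L := by
  have : K = L := by funext x y z w; exact h x y z w
  rwa [← this]

omit [DecidableEq ι] in
/-- two positive semidefinite forms -/
theorem psd_op (e : OrthonormalBasis ι ℝ V) {a b : V →ₗ[ℝ] V →ₗ[ℝ] ℝ} (ha : Sy a) (hb : Sy b)
    (hpa : Psd a) (hpb : Psd b) : OpNonneg (kb a b) := by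
  classical
  refine op_lim (L := kb (gg V) a) (N := fun _ _ _ _ => 0) fun s hs => ?_
  have hb' : Sy (b + s • gg V) := fun x y => by
    simp only [LinearMap.add_apply, LinearMap.smul_apply, smul_eq_mul]
    rw [hb x y, gg_sy x y]
  have hpb' : Psd (b + s • gg V) := fun x => by
    simp only [LinearMap.add_apply, LinearMap.smul_apply, smul_eq_mul]
    exact add_nonneg (hpb x) (mul_nonneg hs.le (gg_psd x))
  have h := diag_op e (b + s • gg V) a hb' ha (fun x hx => by
    simp only [LinearMap.add_apply, LinearMap.smul_apply, smul_eq_mul]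
    exact add_pos_of_nonneg_of_pos (hpb x) (mul_pos hs (gg_pos x hx))) 0 1 0 (fun x y => by
      have := psd_sec hb' ha hpb' hpa x y
      rw [kb] at this
      linarith)
  refine op_congr (fun x y z w => ?_) h
  simp only [kb_def, kn, LinearMap.add_apply, LinearMap.smul_apply, smul_eq_mul]
  ring

/-- L4 -/
theorem lam_op (e : OrthonormalBasis ι ℝ V) {a b : V →ₗ[ℝ] V →ₗ[ℝ] ℝ} (ha : Sy a) (hb : Sy b)
    (hK : ∀ x y, kb a b x y x y ≤ 0) {t : ℝ} (ht : 0 < t) (hp : ∀ x, 0 ≤ b x x - t * a x x) :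
    OpNonneg fun x y z w => -kb a b x y z w := by
  refine op_lim (L := kb (gg V) (b - t • a)) (N := fun x y z w => t * kb (gg V) (gg V) x y z w)
    fun s hs => ?_
  have hp0 : Psd (b - t • a) := fun x => by
    simpa only [LinearMap.sub_apply, LinearMap.smul_apply, smul_eq_mul] using hp x
  have hs0 : Sy (b - t • a) := fun x y => by
    simp only [LinearMap.sub_apply, LinearMap.smul_apply, smul_eq_mul]
    rw [hb x y, ha x y]
  have hs1 : Sy ((b - t • a) + (2 * t * s) • gg V) := fun x y => by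
    rw [LinearMap.add_apply, LinearMap.add_apply, LinearMap.add_apply, LinearMap.add_apply,
      hs0 x y, LinearMap.smul_apply, LinearMap.smul_apply, LinearMap.smul_apply,
      LinearMap.smul_apply, gg_sy x y]
  have hs2 : Sy (a - s • gg V) := fun x y => by
    simp only [LinearMap.sub_apply, LinearMap.smul_apply, smul_eq_mul]
    rw [ha x y, gg_sy x y]
  have key : ∀ x y z w, 0 * kn (fun x y => ((b - t • a) + (2 * t * s) • gg V) x y)
      (fun x y => ((b - t • a) + (2 * t * s) • gg V) x y) x y z w +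
      (-1) * kn (fun x y => ((b - t • a) + (2 * t * s) • gg V) x y)
      (fun x y => (a - s • gg V) x y) x y z w +
      (-t) * kn (fun x y => (a - s • gg V) x y) (fun x y => (a - s • gg V) x y) x y z w =
      -kb a b x y z w + s * kb (gg V) (b - t • a) x y z w +
        s ^ 2 * (t * kb (gg V) (gg V) x y z w) := by
    intro x y z w
    simp only [kb_def, kn, LinearMap.add_apply, LinearMap.sub_apply, LinearMap.smul_apply,
      smul_eq_mul]
    ring
  have h := diag_op e ((b - t • a) + (2 * t * s) • gg V) (a - s • gg V) hs1 hs2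
    (fun x hx => by
      rw [LinearMap.add_apply, LinearMap.add_apply, LinearMap.smul_apply, LinearMap.smul_apply,
        smul_eq_mul]
      exact add_pos_of_nonneg_of_pos (hp0 x) (mul_pos (by positivity) (gg_pos x hx)))
    0 (-1) (-t) (fun x y => by
      rw [key]
      have h1 := hK x y
      have h2 := mul_nonneg hs.le (psd_sec gg_sy hs0 gg_psd hp0 x y)
      have h3 := mul_nonneg (mul_nonneg (sq_nonneg s) ht.le)
        (psd_sec gg_sy gg_sy gg_psd gg_psd x y)
      nlinarith)
  exact op_congr key h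

theorem psd_zero {p : V →ₗ[ℝ] V →ₗ[ℝ] ℝ} (hp : Sy p) (hpp : Psd p) {x : V} (hx : p x x = 0)
    (y : V) : p x y = 0 := by
  have h := psd_cs hp hpp x y
  rw [hx, zero_mul] at h
  exact pow_eq_zero_iff (two_ne_zero) |>.mp (le_antisymm h (sq_nonneg _))

/-- L5 -/
theorem psd_right (e : OrthonormalBasis ι ℝ V) {a p : V →ₗ[ℝ] V →ₗ[ℝ] ℝ} (ha : Sy a) (hp : Sy p)
    (hK : ∀ x y, kb a p x y x y ≤ 0) (hpp : Psd p) :
    OpNonneg fun x y z w => -kb a p x y z w := by
  have hfin : FiniteDimensional ℝ V := e.toBasis.finiteDimensional_of_finite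
  by_cases hneg : ∀ x, a x x ≤ 0
  · have h1 : Sy (-a) := fun x y => by
      simp only [LinearMap.neg_apply]; rw [ha x y]
    have h2 : Psd (-a) := fun x => by
      simp only [LinearMap.neg_apply]; linarith [hneg x]
    refine op_congr (fun x y z w => ?_) (psd_op e h1 hp h2 hpp)
    simp only [kb_def, LinearMap.neg_apply]; ring
  push Not at hneg
  obtain ⟨x0, hx0⟩ := hneg
  rcases (hpp x0).lt_or_eq with hπ | hπ
  · -- the main case
    have hb : ∀ y, |a x0 y| ≤ (‖LinearMap.toContinuousLinearMap (a x0)‖ + 1) * ‖y‖ := by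
      intro y
      have h1 := (LinearMap.toContinuousLinearMap (a x0)).le_opNorm y
      rw [LinearMap.coe_toContinuousLinearMap', Real.norm_eq_abs] at h1
      nlinarith [norm_nonneg y]
    set M : ℝ := ‖LinearMap.toContinuousLinearMap (a x0)‖ + 1 with hM
    have hM0 : 0 < M := by positivity
    refine op_lim (L := kb (gg V) p) (N := fun _ _ _ _ => 0) fun s hs => ?_
    have hs2 : Sy (a - s • gg V) := fun x y => by
      simp only [LinearMap.sub_apply, LinearMap.smul_apply, smul_eq_mul]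
      rw [ha x y, gg_sy x y]
    have key : ∀ x y z w, -kb (a - s • gg V) p x y z w =
        -kb a p x y z w + s * kb (gg V) p x y z w + s ^ 2 * 0 := by
      intro x y z w
      simp only [kb_def, LinearMap.sub_apply, LinearMap.smul_apply, smul_eq_mul]
      ring
    refine op_congr key (lam_op e hs2 hp (fun x y => ?_) (t := p x0 x0 * s / M ^ 2)
      (by positivity) fun y => ?_)
    · have h1 := key x y x y
      have h2 := hK x y
      have h3 := mul_nonneg hs.le (psd_sec gg_sy hp gg_psd hpp x y)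
      linarith
    · simp only [LinearMap.sub_apply, LinearMap.smul_apply, smul_eq_mul]
      rw [gg_apply, real_inner_self_eq_norm_sq]
      have h1 := hK x0 y
      rw [kb_sec ha hp] at h1
      have h2 := psd_cs hp hpp x0 y
      have h3 : a x0 y ^ 2 ≤ M ^ 2 * ‖y‖ ^ 2 := by
        have := hb y
        rw [← mul_pow, ← sq_abs (a x0 y)]
        exact pow_le_pow_left₀ (abs_nonneg _) this 2
      have h4 : 0 ≤ a x0 x0 * p y y := mul_nonneg hx0.le (hpp y)
      -- π a yy ≤ 2 u v
      have h5 : p x0 x0 * a y y ≤ 2 * (a x0 y * p x0 y) := by linarith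
      have h6 : 0 ≤ M ^ 2 * (p x0 x0 * (p y y - p x0 x0 * s / M ^ 2 * (a y y - s * ‖y‖ ^ 2))) := by
        have e1 : M ^ 2 * (p x0 x0 * (p y y - p x0 x0 * s / M ^ 2 * (a y y - s * ‖y‖ ^ 2))) =
            M ^ 2 * (p x0 x0 * p y y) - p x0 x0 * s * (p x0 x0 * a y y) +
              p x0 x0 ^ 2 * s ^ 2 * ‖y‖ ^ 2 := by
          field_simp
          ring
        rw [e1]
        have h7 : M ^ 2 * p x0 y ^ 2 ≤ M ^ 2 * (p x0 x0 * p y y) :=
          mul_le_mul_of_nonneg_left h2 (sq_nonneg _)
        have h8 : p x0 x0 * s * (p x0 x0 * a y y) ≤ p x0 x0 * s * (2 * (a x0 y * p x0 y)) :=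
          mul_le_mul_of_nonneg_left h5 (by positivity)
        have h9 : p x0 x0 ^ 2 * s ^ 2 * a x0 y ^ 2 ≤
            M ^ 2 * (p x0 x0 ^ 2 * s ^ 2 * ‖y‖ ^ 2) := by
          have := mul_le_mul_of_nonneg_left h3 (by positivity : 0 ≤ p x0 x0 ^ 2 * s ^ 2)
          linarith
        have h10 : 0 ≤ M ^ 2 * (M ^ 2 * p x0 y ^ 2 - p x0 x0 * s * (2 * (a x0 y * p x0 y)) +
            p x0 x0 ^ 2 * s ^ 2 * ‖y‖ ^ 2) := by
          nlinarith [sq_nonneg (M ^ 2 * p x0 y - p x0 x0 * s * a x0 y)]
        have h11 : 0 ≤ M ^ 2 * p x0 y ^ 2 - p x0 x0 * s * (2 * (a x0 y * p x0 y)) +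
            p x0 x0 ^ 2 * s ^ 2 * ‖y‖ ^ 2 := by
          by_contra hc
          push Not at hc
          have := mul_neg_of_pos_of_neg (by positivity : 0 < M ^ 2) hc
          linarith
        linarith
      have h12 : 0 < M ^ 2 * p x0 x0 := by positivity
      by_contra hc
      push Not at hc
      have := mul_neg_of_pos_of_neg h12 hc
      nlinarith
  · -- p = 0
    have h1 : ∀ y, p y y = 0 := by
      intro y
      have h2 := hK x0 y
      rw [kb_sec ha hp, psd_zero hp hpp hπ.symm y, ← hπ] at h2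
      have h3 := hpp y
      have h4 : a x0 x0 * p y y ≤ 0 := by linarith
      by_contra h5
      have h6 : 0 < p y y := lt_of_le_of_ne h3 (Ne.symm h5)
      nlinarith [mul_pos hx0 h6]
    have h2 : ∀ x y, p x y = 0 := fun x y => psd_zero hp hpp (h1 x) y
    intro n x y
    simp only [kb_def, h2]
    simp

/-- the linear term of a nonpositive quadratic function vanishes -/
theorem lin0 {L M : ℝ} (h : ∀ t : ℝ, t * L + t ^ 2 * M ≤ 0) : L = 0 := by
  have h1 : 0 ≤ -L := lim0 (A := -L) (B := -M) (C := 0) fun s hs => by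
    have := h s
    have h2 : s * (L + s * M) ≤ 0 := by nlinarith
    have h3 : L + s * M ≤ 0 := by
      by_contra hc
      push Not at hc
      have := mul_pos hs hc
      linarith
    linarith
  have h4 : 0 ≤ L := lim0 (A := L) (B := -M) (C := 0) fun s hs => by
    have := h (-s)
    have h2 : s * (-L + s * M) ≤ 0 := by nlinarith
    have h3 : -L + s * M ≤ 0 := by
      by_contra hc
      push Not at hc
      have := mul_pos hs hc
      linarith
    linarith
  linarith

omit [DecidableEq ι] [Fintype ι] in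
/-- **S-lemma** (homogeneous, two symmetric forms). -/
theorem s_lemma {a b : V →ₗ[ℝ] V →ₗ[ℝ] ℝ} (ha : Sy a) (hb : Sy b)
    (hpos : ∃ x, 0 < a x x) (hneg : ∃ x, a x x < 0) (h : ∀ x, a x x = 0 → 0 ≤ b x x) :
    ∃ t : ℝ, ∀ x, 0 ≤ b x x - t * a x x := by
  have cross : ∀ u v, 0 < a u u → a v v < 0 → b v v / a v v ≤ b u u / a u u := by
    intro u v hu hv
    set A := a v v with hA
    set B := a u v with hB
    set C := a u u with hC
    have hD : 0 < B ^ 2 - A * C := by nlinarith [mul_pos hu (neg_pos.mpr hv), sq_nonneg B]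
    set s := Real.sqrt (B ^ 2 - A * C) with hs
    have hs2 : s ^ 2 = B ^ 2 - A * C := Real.sq_sqrt hD.le
    have hs0 : 0 < s := Real.sqrt_pos.mpr hD
    have hsB : B ^ 2 < s ^ 2 := by rw [hs2]; nlinarith [mul_pos hu (neg_pos.mpr hv)]
    have hsB' := abs_lt.mp (abs_lt_of_sq_lt_sq hsB hs0.le)
    have e1 : ∀ r : ℝ, a (A • u + r • v) (A • u + r • v) = A ^ 2 * C + 2 * A * r * B + r ^ 2 * A := by
      intro r
      simp only [map_add, map_smul, LinearMap.add_apply, LinearMap.smul_apply, smul_eq_mul]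
      rw [ha v u, ← hA, ← hB, ← hC]; ring
    have e2 : ∀ r : ℝ, b (A • u + r • v) (A • u + r • v) =
        A ^ 2 * b u u + 2 * A * r * b u v + r ^ 2 * b v v := by
      intro r
      simp only [map_add, map_smul, LinearMap.add_apply, LinearMap.smul_apply, smul_eq_mul]
      rw [hb v u]; ring
    have r1 := h (A • u + (-B + s) • v) (by rw [e1]; nlinarith)
    have r2 := h (A • u + (-B - s) • v) (by rw [e1]; nlinarith)
    rw [e2] at r1 r2
    have h3 : 0 ≤ (s + B) * (A ^ 2 * b u u + 2 * A * (-B + s) * b u v + (-B + s) ^ 2 * b v v) +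
        (s - B) * (A ^ 2 * b u u + 2 * A * (-B - s) * b u v + (-B - s) ^ 2 * b v v) :=
      add_nonneg (mul_nonneg (by linarith) r1) (mul_nonneg (by linarith) r2)
    have h4 : (s + B) * (A ^ 2 * b u u + 2 * A * (-B + s) * b u v + (-B + s) ^ 2 * b v v) +
        (s - B) * (A ^ 2 * b u u + 2 * A * (-B - s) * b u v + (-B - s) ^ 2 * b v v) =
        (2 * s * (-A)) * (C * b v v - A * b u u) := by
      have : s ^ 2 - B ^ 2 = -(A * C) := by rw [hs2]; ring
      calc _ = 2 * s * (A ^ 2 * b u u) + (s ^ 2 - B ^ 2) * (2 * s) * b v v := by ring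
        _ = _ := by rw [this]; ring
    rw [h4] at h3
    have h5 : 0 < 2 * s * (-A) := mul_pos (by linarith) (by linarith)
    have h6 : 0 ≤ C * b v v - A * b u u := by
      by_contra hc
      push Not at hc
      have := mul_neg_of_pos_of_neg h5 hc
      linarith
    rw [div_le_iff_of_neg hv, div_mul_eq_mul_div, div_le_iff₀ hu]
    linarith
  obtain ⟨u0, hu0⟩ := hpos
  obtain ⟨v0, hv0⟩ := hneg
  set S : Set ℝ := {r | ∃ v, a v v < 0 ∧ r = b v v / a v v} with hS
  have hbdd : BddAbove S := ⟨b u0 u0 / a u0 u0, by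
    rintro r ⟨v, hv, rfl⟩
    exact cross u0 v hu0 hv⟩
  have hne : S.Nonempty := ⟨_, v0, hv0, rfl⟩
  refine ⟨sSup S, fun x => ?_⟩
  rcases lt_trichotomy (a x x) 0 with hx | hx | hx
  · have h1 : b x x / a x x ≤ sSup S := le_csSup hbdd ⟨x, hx, rfl⟩
    rw [div_le_iff_of_neg hx] at h1
    linarith
  · rw [hx, mul_zero, sub_zero]
    exact h x hx
  · have h1 : sSup S ≤ b x x / a x x := csSup_le hne (by
      rintro r ⟨v, hv, rfl⟩
      exact cross x v hx hv)
    rw [le_div_iff₀ hx] at h1
    linarith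

end Pool.Agent.R537.LK
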