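import Pool.Agent.R537.LK.Lor

/-!
# Two symmetric forms: nonpositive sectional values imply a nonpositive operator
-/

set_option autoImplicit false

namespace Pool.Agent.R537.LK

open Pool.Agent.W669.HD Finset

variable {V : Type*} [NormedAddCommGroup V] [InnerProductSpace ℝ V]
  {ι : Type*} [Fintype ι] [DecidableEq ι]

omit [Fintype ι] [DecidableEq ι] in
/-- L3: the form `b` takes both signs on the isotropic vectors of `a` -/
theorem special {a b : V →ₗ[ℝ] V →ₗ[ℝ] ℝ} (ha : Sy a) (hb : Sy b)
    (hK : ∀ x y, kb a b x y x y ≤ 0) {x x' : V} (h1 : a x x = 0) (h2 : 0 < b x x)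
    (h3 : a x' x' = 0) (h4 : b x' x' < 0) : OpNonneg fun x y z w => -kb a b x y z w := by
  set β := b x x with hβ
  set β' := -b x' x' with hβ'
  have hβ0 : 0 < β' := by rw [hβ']; linarith
  have hb' : b x' x' = -β' := by rw [hβ']; ring
  -- Q_x
  have qx : ∀ y, β * a y y ≤ 2 * (a x y * b x y) := by
    intro y
    have := hK x y
    rw [kb_sec ha hb, h1] at this
    linarith
  have qx' : ∀ y, -β' * a y y ≤ 2 * (a x' y * b x' y) := by
    intro y
    have := hK x' y
    rw [kb_sec ha hb, h3, hb'] at this
    linarith
  -- linearised versions at `y + t z`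
  have lx : ∀ y z, β * a y y = 2 * (a x y * b x y) →
      β * a y z = a x z * b x y + a x y * b x z := by
    intro y z hy
    have h := lin0 (L := 2 * (β * a y z - a x z * b x y - a x y * b x z))
      (M := β * a z z - 2 * (a x z * b x z)) fun t => by
        have := qx (y + t • z)
        simp only [map_add, map_smul, LinearMap.add_apply, LinearMap.smul_apply,
          smul_eq_mul] at this
        rw [ha z y] at this
        nlinarith [this]
    linarith
  have lx' : ∀ y z, -β' * a y y = 2 * (a x' y * b x' y) →
      -β' * a y z = a x' z * b x' y + a x' y * b x' z := by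
    intro y z hy
    have h := lin0 (L := 2 * (-β' * a y z - a x' z * b x' y - a x' y * b x' z))
      (M := -β' * a z z - 2 * (a x' z * b x' z)) fun t => by
        have := qx' (y + t • z)
        simp only [map_add, map_smul, LinearMap.add_apply, LinearMap.smul_apply,
          smul_eq_mul] at this
        rw [ha z y] at this
        nlinarith [this]
    linarith
  by_cases he : a x x' = 0
  · -- `a = 0`
    have he' : a x' x = 0 := by rw [ha, he]
    have i1 : ∀ z, β * a x' z = a x z * b x x' := by
      intro z
      have := lx x' z (by rw [h3, he]; ring)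
      rw [he] at this
      linarith
    have i2 : ∀ z, -β' * a x z = a x' z * b x' x := by
      intro z
      have := lx' x z (by rw [h1, he']; ring)
      rw [he'] at this
      linarith
    have i3 : ∀ z, a x z = 0 := by
      intro z
      have e1 := i1 z
      have e2 := i2 z
      rw [hb x' x] at e2
      have e3 : a x z * (β * β' + b x x' ^ 2) = 0 := by
        have : β * (-β' * a x z) = (β * a x' z) * b x x' := by rw [e2]; ring
        rw [e1] at this
        linarith
      rcases mul_eq_zero.mp e3 with h | h
      · exact h
      · nlinarith [mul_pos h2 hβ0, sq_nonneg (b x x')]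
    have i4 : ∀ z, a x' z = 0 := by
      intro z
      have e1 := i1 z
      rw [i3, zero_mul] at e1
      rcases mul_eq_zero.mp e1 with h | h
      · linarith
      · exact h
    have i5 : ∀ y, a y y = 0 := by
      intro y
      have e1 := qx y
      have e2 := qx' y
      rw [i3] at e1
      rw [i4] at e2
      have e3 : a y y ≤ 0 := by nlinarith
      have e4 : 0 ≤ a y y := by nlinarith
      linarith
    have i6 : ∀ y z, a y z = 0 := by
      intro y z
      have := i5 (y + z)
      simp only [map_add, LinearMap.add_apply] at this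
      rw [i5, i5, ha z y] at this
      linarith
    intro n u v
    simp only [kb_def, i6]
    simp
  · set E := a x x' with hE
    have hE' : a x' x = E := by rw [ha]
    -- the common kernel
    have ker : ∀ u, a x u = 0 → a x' u = 0 →
        (∀ z, a u z = 0) ∧ b x u = 0 ∧ b x' u = 0 ∧ b u u = 0 := by
      intro u hu hu'
      have j1 : a u u = 0 := by
        have e1 := qx u
        have e2 := qx' u
        rw [hu] at e1
        rw [hu'] at e2
        have e3 : a u u ≤ 0 := by nlinarith
        have e4 : 0 ≤ a u u := by nlinarith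
        linarith
      have j2 : ∀ z, β * a u z = a x z * b x u := by
        intro z
        have := lx u z (by rw [j1, hu]; ring)
        rw [hu] at this
        linarith
      have j3 : ∀ z, -β' * a u z = a x' z * b x' u := by
        intro z
        have := lx' u z (by rw [j1, hu']; ring)
        rw [hu'] at this
        linarith
      have j4 : b x u = 0 := by
        have := j2 x'
        rw [ha u x', hu', mul_zero, ← hE] at this
        rcases mul_eq_zero.mp this.symm with h | h
        · exact absurd h he
        · exact h
      have j5 : b x' u = 0 := by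
        have := j3 x
        rw [ha u x, hu, mul_zero, hE'] at this
        rcases mul_eq_zero.mp this.symm with h | h
        · exact absurd h he
        · exact h
      have j6 : ∀ z, a u z = 0 := by
        intro z
        have := j2 z
        rw [j4, mul_zero] at this
        rcases mul_eq_zero.mp this with h | h
        · linarith
        · exact h
      refine ⟨j6, j4, j5, ?_⟩
      have j7 : ∀ y, a y y * b u u ≤ 0 := by
        intro y
        have := hK y u
        rw [kb_sec ha hb, ha y u, j6, j6] at this
        linarith
      have k1 := j7 (x + x')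
      have k2 := j7 (x - x')
      simp only [map_add, map_sub, LinearMap.add_apply, LinearMap.sub_apply] at k1 k2
      rw [h1, h3, ← hE, hE'] at k1 k2
      have k3 : E * b u u ≤ 0 := by linarith
      have k4 : 0 ≤ E * b u u := by linarith
      rcases mul_eq_zero.mp (le_antisymm k3 k4) with h | h
      · exact absurd h he
      · exact h
    have res1 : ∀ z, a x (z - ((a x' z / E) • x + (a x z / E) • x')) = 0 := by
      intro z
      simp only [map_sub, map_add, map_smul, smul_eq_mul]
      rw [h1, ← hE]; field_simp; ring
    have res2 : ∀ z, a x' (z - ((a x' z / E) • x + (a x z / E) • x')) = 0 := by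
      intro z
      simp only [map_sub, map_add, map_smul, smul_eq_mul]
      rw [h3, hE']; field_simp; ring
    have kerb : ∀ u, a x u = 0 → a x' u = 0 → ∀ z, b u z = 0 := by
      intro u hu hu' z
      obtain ⟨-, k1, k2, k3⟩ := ker u hu hu'
      obtain ⟨-, l1, l2, l3⟩ := ker _ (res1 z) (res2 z)
      set w := z - ((a x' z / E) • x + (a x z / E) • x') with hw
      have hz : z = ((a x' z / E) • x + (a x z / E) • x') + w := by rw [hw]; abel
      obtain ⟨-, -, -, m3⟩ := ker (u + w) (by rw [map_add, hu, hw, res1, add_zero])
        (by rw [map_add, hu', hw, res2, add_zero])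
      have m4 : b u w = 0 := by
        simp only [map_add, LinearMap.add_apply] at m3
        rw [k3, l3, hb w u] at m3
        linarith
      have m5 : b u z = (a x' z / E) * b u x + (a x z / E) * b u x' + b u w := by
        conv_lhs => rw [hz]
        simp only [map_add, map_smul, smul_eq_mul]
      rw [m5, m4, hb u x, hb u x', k1, k2]; ring
    have fa : ∀ y z, a y z = (a x' y / E) * a x z + (a x y / E) * a x' z := by
      intro y z
      have k1 := (ker _ (res1 y) (res2 y)).1 z
      simp only [map_sub, map_add, map_smul, LinearMap.sub_apply, LinearMap.add_apply,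
        LinearMap.smul_apply, smul_eq_mul] at k1
      linarith
    have fb : ∀ y z, b y z = (a x' y / E) * b x z + (a x y / E) * b x' z := by
      intro y z
      have k1 := kerb _ (res1 y) (res2 y) z
      simp only [map_sub, map_add, map_smul, LinearMap.sub_apply, LinearMap.add_apply,
        LinearMap.smul_apply, smul_eq_mul] at k1
      linarith
    have fb1 : ∀ z, b x z = (a x' z / E) * β + (a x z / E) * b x x' := by
      intro z
      rw [hb x z, fb z x, hb x' x]
    have fb2 : ∀ z, b x' z = (a x' z / E) * b x x' - (a x z / E) * β' := by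
      intro z
      rw [hb x' z, fb z x', hb']; ring
    have hκ : 0 ≤ 2 * E * b x x' := by
      have := hK x x'
      rw [kb_sec ha hb, h1, h3, ← hE] at this
      linarith
    have main : ∀ y z u v, -kb a b y z u v = 2 * E * b x x' *
        (((a x' y / E) * (a x z / E) - (a x y / E) * (a x' z / E)) *
          ((a x' u / E) * (a x v / E) - (a x u / E) * (a x' v / E))) := by
      intro y z u v
      rw [kb_def, fa y u, fa z v, fa y v, fa z u, fb y u, fb z v, fb y v, fb z u,
        fb1 u, fb1 v, fb2 u, fb2 v]
      field_simp
      ring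
    intro n u v
    simp only [main, ← Finset.mul_sum]
    refine mul_nonneg hκ ?_
    rw [← Finset.sum_mul]
    exact mul_self_nonneg _

theorem kb_swap (a b : V →ₗ[ℝ] V →ₗ[ℝ] ℝ) (x y z w : V) : kb a b x y z w = kb b a x y z w := by
  simp only [kb_def]; ring

theorem kb_negneg (a b : V →ₗ[ℝ] V →ₗ[ℝ] ℝ) (x y z w : V) :
    kb (-a) (-b) x y z w = kb a b x y z w := by
  simp only [kb_def, LinearMap.neg_apply]; ring

theorem Sy.neg {a : V →ₗ[ℝ] V →ₗ[ℝ] ℝ} (ha : Sy a) : Sy (-a) := fun x y => by
  simp only [LinearMap.neg_apply]; rw [ha x y]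

/-- the case where some combination `b - t a` is positive semidefinite -/
theorem pencil_op (e : OrthonormalBasis ι ℝ V) {a b : V →ₗ[ℝ] V →ₗ[ℝ] ℝ} (ha : Sy a) (hb : Sy b)
    (hK : ∀ x y, kb a b x y x y ≤ 0) {t : ℝ} (hp : ∀ x, 0 ≤ b x x - t * a x x) :
    OpNonneg fun x y z w => -kb a b x y z w := by
  rcases lt_trichotomy t 0 with ht | ht | ht
  · -- `p = b + c a`, `d = c a - b`
    set c := -t with hc
    have hc0 : 0 < c := by rw [hc]; linarith
    have hsp : Sy (b + c • a) := fun x y => by
      simp only [LinearMap.add_apply, LinearMap.smul_apply, smul_eq_mul]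
      rw [ha x y, hb x y]
    have hpp : Psd (b + c • a) := fun x => by
      simp only [LinearMap.add_apply, LinearMap.smul_apply, smul_eq_mul]
      have := hp x
      rw [hc]; linarith
    have hd : ∀ x y, 0 ≤ (c * a x x - b x x) * (c * a y y - b y y) -
        (c * a x y - b x y) ^ 2 := by
      intro x y
      have h1 := psd_sec hsp hsp hpp hpp x y
      have h2 := hK x y
      rw [kb_sec hsp hsp] at h1
      rw [kb_sec ha hb] at h2
      simp only [LinearMap.add_apply, LinearMap.smul_apply, smul_eq_mul] at h1
      nlinarith
    by_cases h : ∀ x, 0 ≤ c * a x x - b x x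
    · have h1 := lam_op e hb ha (fun x y => by rw [kb_swap]; exact hK x y) (t := 1 / c)
        (by positivity) (fun x => by
          have h2 := h x
          have h3 : a x x - 1 / c * b x x = (c * a x x - b x x) / c := by field_simp
          rw [h3]
          exact div_nonneg h2 hc0.le)
      exact op_congr (fun x y z w => by rw [kb_swap]) h1
    · push Not at h
      obtain ⟨x0, hx0⟩ := h
      refine lam_op e ha hb hK hc0 fun y => ?_
      have h1 := hd x0 y
      by_contra h2
      push Not at h2
      have h3 : (c * a x0 x0 - b x0 x0) * (c * a y y - b y y) < 0 :=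
        mul_neg_of_neg_of_pos hx0 (by linarith)
      nlinarith [sq_nonneg (c * a x0 y - b x0 y)]
  · refine psd_right e ha hb hK fun x => ?_
    have := hp x
    rw [ht] at this
    linarith
  · exact lam_op e ha hb hK ht hp

/-- **Nonpositive sectional values of the product of two symmetric forms imply a nonpositive
operator.** -/
theorem lor_op (e : OrthonormalBasis ι ℝ V) {a b : V →ₗ[ℝ] V →ₗ[ℝ] ℝ} (ha : Sy a) (hb : Sy b)
    (hK : ∀ x y, kb a b x y x y ≤ 0) : OpNonneg fun x y z w => -kb a b x y z w := by
  have hK' : ∀ x y, kb b a x y x y ≤ 0 := fun x y => by rw [kb_swap]; exact hK x y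
  by_cases hp : ∀ x, 0 ≤ a x x
  · exact op_congr (fun x y z w => by rw [kb_swap]) (psd_right e hb ha hK' hp)
  by_cases hn : ∀ x, a x x ≤ 0
  · have h1 := psd_right e hb.neg ha.neg (fun x y => by rw [kb_negneg]; exact hK' x y)
      (fun x => by simp only [LinearMap.neg_apply]; linarith [hn x])
    exact op_congr (fun x y z w => by rw [kb_negneg, kb_swap]) h1
  push Not at hp hn
  by_cases h1 : ∀ x, a x x = 0 → 0 ≤ b x x
  · obtain ⟨t, ht⟩ := s_lemma ha hb hn hp h1
    exact pencil_op e ha hb hK ht
  by_cases h2 : ∀ x, a x x = 0 → b x x ≤ 0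
  · obtain ⟨t, ht⟩ := s_lemma ha hb.neg hn hp (fun x hx => by
      simp only [LinearMap.neg_apply]; linarith [h2 x hx])
    have h3 := pencil_op e ha.neg hb.neg (fun x y => by rw [kb_negneg]; exact hK x y)
      (t := -t) (fun x => by
        have := ht x
        simp only [LinearMap.neg_apply] at this ⊢
        linarith)
    exact op_congr (fun x y z w => by rw [kb_negneg]) h3
  push Not at h1 h2
  obtain ⟨x', hx', hbx'⟩ := h1
  obtain ⟨x, hx, hbx⟩ := h2
  exact special ha hb hK hx hbx hx' hbx'

/-- negative definite normal metric -/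
theorem def_op (e : OrthonormalBasis ι ℝ V) {a b : V →ₗ[ℝ] V →ₗ[ℝ] ℝ} (ha : Sy a) (hb : Sy b)
    (hK : ∀ x y, 0 ≤ kb a a x y x y + kb b b x y x y) :
    OpNonneg fun x y z w => kb a a x y z w + kb b b x y z w := by
  by_cases h0 : ∀ x, a x x = 0 ∧ b x x = 0
  · have h1 : ∀ x y, a x y = 0 := by
      intro x y
      have := (h0 (x + y)).1
      simp only [map_add, LinearMap.add_apply] at this
      rw [(h0 x).1, (h0 y).1, ha y x] at this
      linarith
    have h2 : ∀ x y, b x y = 0 := by
      intro x y
      have := (h0 (x + y)).2
      simp only [map_add, LinearMap.add_apply] at this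
      rw [(h0 x).2, (h0 y).2, hb y x] at this
      linarith
    intro n x y
    simp only [kb_def, h1, h2]
    simp
  push Not at h0
  obtain ⟨x0, hx0⟩ := h0
  set c1 := a x0 x0 with hc1
  set c2 := b x0 x0 with hc2
  have hcpos : 0 < c1 ^ 2 + c2 ^ 2 := by
    by_cases h : c1 = 0
    · have := hx0 h
      positivity
    · positivity
  have hsp : Sy (c1 • a + c2 • b) := fun x y => by
    simp only [LinearMap.add_apply, LinearMap.smul_apply, smul_eq_mul]
    rw [ha x y, hb x y]
  have hsq : Sy (c1 • b - c2 • a) := fun x y => by
    simp only [LinearMap.sub_apply, LinearMap.smul_apply, smul_eq_mul]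
    rw [ha x y, hb x y]
  have hpp : Psd (c1 • a + c2 • b) := fun x => by
    simp only [LinearMap.add_apply, LinearMap.smul_apply, smul_eq_mul]
    have := hK x0 x
    rw [kb_sec ha ha, kb_sec hb hb, ← hc1, ← hc2] at this
    nlinarith [sq_nonneg (a x0 x), sq_nonneg (b x0 x)]
  have hmain : OpNonneg fun x y z w => kb (c1 • a + c2 • b) (c1 • a + c2 • b) x y z w +
      kb (c1 • b - c2 • a) (c1 • b - c2 • a) x y z w := by
    refine op_lim (L := fun x y z w => 2 * kb (gg V) (c1 • a + c2 • b) x y z w)
      (N := kb (gg V) (gg V)) fun s hs => ?_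
    have hs1 : Sy ((c1 • a + c2 • b) + s • gg V) := fun x y => by
      simp only [LinearMap.add_apply, LinearMap.smul_apply, smul_eq_mul]
      rw [ha x y, hb x y, gg_sy x y]
    have key : ∀ x y z w, 1 * kn (fun x y => ((c1 • a + c2 • b) + s • gg V) x y)
        (fun x y => ((c1 • a + c2 • b) + s • gg V) x y) x y z w +
        0 * kn (fun x y => ((c1 • a + c2 • b) + s • gg V) x y)
        (fun x y => (c1 • b - c2 • a) x y) x y z w +
        1 * kn (fun x y => (c1 • b - c2 • a) x y) (fun x y => (c1 • b - c2 • a) x y) x y z w =
        kb (c1 • a + c2 • b) (c1 • a + c2 • b) x y z w +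
        kb (c1 • b - c2 • a) (c1 • b - c2 • a) x y z w +
        s * (2 * kb (gg V) (c1 • a + c2 • b) x y z w) + s ^ 2 * kb (gg V) (gg V) x y z w := by
      intro x y z w
      simp only [kb_def, kn, LinearMap.add_apply, LinearMap.sub_apply, LinearMap.smul_apply,
        smul_eq_mul]
      ring
    refine op_congr key (diag_op e _ _ hs1 hsq (fun x hx => ?_) 1 0 1 fun x y => ?_)
    · rw [LinearMap.add_apply, LinearMap.add_apply, LinearMap.smul_apply, LinearMap.smul_apply,
        smul_eq_mul]
      exact add_pos_of_nonneg_of_pos (hpp x) (mul_pos hs (gg_pos x hx))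
    · rw [key]
      have h1 : 0 ≤ kb (c1 • a + c2 • b) (c1 • a + c2 • b) x y x y +
          kb (c1 • b - c2 • a) (c1 • b - c2 • a) x y x y := by
        have h2 : kb (c1 • a + c2 • b) (c1 • a + c2 • b) x y x y +
            kb (c1 • b - c2 • a) (c1 • b - c2 • a) x y x y =
            (c1 ^ 2 + c2 ^ 2) * (kb a a x y x y + kb b b x y x y) := by
          simp only [kb_def, LinearMap.add_apply, LinearMap.sub_apply, LinearMap.smul_apply,
            smul_eq_mul]
          ring
        rw [h2]
        exact mul_nonneg hcpos.le (hK x y)
      have h3 := mul_nonneg hs.le (psd_sec gg_sy hsp gg_psd hpp x y)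
      have h4 := mul_nonneg (sq_nonneg s) (psd_sec gg_sy gg_sy gg_psd gg_psd x y)
      linarith
  refine op_congr (fun x y z w => ?_)
    (op_smul (c := 1 / (c1 ^ 2 + c2 ^ 2)) (by positivity) hmain)
  simp only [kb_def, LinearMap.add_apply, LinearMap.sub_apply, LinearMap.smul_apply,
    smul_eq_mul]
  field_simp
  ring

/-- the curvature tensor of the Gauss equation for two normal directions with Gram matrix
`(q11, q12; q12, q22)` -/
def gq (q11 q12 q22 : ℝ) (a b : V → V → ℝ) (x y z w : V) : ℝ :=
  (q11 * (a x z * a y w) + q12 * (a x z * b y w + b x z * a y w) + q22 * (b x z * b y w)) -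
  (q11 * (a x w * a y z) + q12 * (a x w * b y z + b x w * a y z) + q22 * (b x w * b y z))

/-- **The operator is nonpositive** unless the normal metric is positive definite. -/
theorem gq_op (e : OrthonormalBasis ι ℝ V) {a b : V →ₗ[ℝ] V →ₗ[ℝ] ℝ} (ha : Sy a) (hb : Sy b)
    (q11 q12 q22 : ℝ) (hq : q11 ≤ 0 ∨ q11 * q22 ≤ q12 ^ 2)
    (hK : ∀ x y, gq q11 q12 q22 (fun x y => a x y) (fun x y => b x y) x y x y ≤ 0) :
    OpNonneg fun x y z w => -gq q11 q12 q22 (fun x y => a x y) (fun x y => b x y) x y z w := by
  by_cases hD : q11 * q22 ≤ q12 ^ 2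
  · by_cases h11 : q11 = 0
    · -- `kn b (q12 a + q22/2 b)`
      have hs : Sy (q12 • a + (q22 / 2) • b) := fun x y => by
        simp only [LinearMap.add_apply, LinearMap.smul_apply, smul_eq_mul]
        rw [ha x y, hb x y]
      have key : ∀ x y z w, gq q11 q12 q22 (fun x y => a x y) (fun x y => b x y) x y z w =
          kb b (q12 • a + (q22 / 2) • b) x y z w := by
        intro x y z w
        simp only [gq, kb_def, h11, LinearMap.add_apply, LinearMap.smul_apply, smul_eq_mul]
        ring
      exact op_congr (fun x y z w => by rw [key]) (lor_op e hb hs fun x y => by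
        rw [← key]; exact hK x y)
    · set s := Real.sqrt (q12 ^ 2 - q11 * q22) with hs
      have hs2 : s ^ 2 = q12 ^ 2 - q11 * q22 := Real.sq_sqrt (by linarith)
      have hs1 : Sy ((1 / (2 * q11)) • (q11 • a + (q12 + s) • b)) := fun x y => by
        simp only [LinearMap.add_apply, LinearMap.smul_apply, smul_eq_mul]
        rw [ha x y, hb x y]
      have hs1' : Sy (q11 • a + (q12 - s) • b) := fun x y => by
        simp only [LinearMap.add_apply, LinearMap.smul_apply, smul_eq_mul]
        rw [ha x y, hb x y]
      have key : ∀ x y z w, gq q11 q12 q22 (fun x y => a x y) (fun x y => b x y) x y z w =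
          kb ((1 / (2 * q11)) • (q11 • a + (q12 + s) • b)) (q11 • a + (q12 - s) • b) x y z w := by
        intro x y z w
        have hq22 : q22 = (q12 ^ 2 - s ^ 2) / q11 := by
          rw [hs2]; field_simp; ring
        simp only [gq, kb_def, LinearMap.add_apply, LinearMap.smul_apply, smul_eq_mul]
        rw [hq22]
        field_simp
        ring
      exact op_congr (fun x y z w => by rw [key]) (lor_op e hs1 hs1' fun x y => by
        rw [← key]; exact hK x y)
  · push Not at hD
    have h11 : q11 < 0 := by
      rcases hq with h | h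
      · rcases h.lt_or_eq with h' | h'
        · exact h'
        · rw [h', zero_mul] at hD
          nlinarith [sq_nonneg q12]
      · linarith
    set s := Real.sqrt (q11 * q22 - q12 ^ 2) with hs
    have hs2 : s ^ 2 = q11 * q22 - q12 ^ 2 := Real.sq_sqrt (by linarith)
    have hs1 : Sy (q11 • a + q12 • b) := fun x y => by
      simp only [LinearMap.add_apply, LinearMap.smul_apply, smul_eq_mul]
      rw [ha x y, hb x y]
    have hs1' : Sy (s • b) := fun x y => by
      simp only [LinearMap.smul_apply, smul_eq_mul]
      rw [hb x y]
    have key : ∀ x y z w, kb (q11 • a + q12 • b) (q11 • a + q12 • b) x y z w +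
        kb (s • b) (s • b) x y z w =
        (2 * q11) * gq q11 q12 q22 (fun x y => a x y) (fun x y => b x y) x y z w := by
      intro x y z w
      simp only [gq, kb_def, LinearMap.add_apply, LinearMap.smul_apply, smul_eq_mul]
      linear_combination (2 * (b x z * b y w) - 2 * (b x w * b y z)) * hs2
    have h := def_op e hs1 hs1' (fun x y => by
      rw [key]
      exact mul_nonneg_of_nonpos_of_nonpos (by linarith) (hK x y))
    refine op_congr (fun x y z w => ?_) (op_smul (c := 1 / (-(2 * q11)))
      (by apply div_nonneg <;> linarith) h)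
    simp only [key]
    have : q11 ≠ 0 := h11.ne
    field_simp

end Pool.Agent.R537.LK
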