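import Pool.Agent.R537.LK.Main
import Pool.Agent.Y489.SM.Ld

/-!
# Positive definite normal metric: nonpositive sectional values imply a nonpositive operator
-/

set_option autoImplicit false

namespace Pool.Agent.R537.LK

open Pool.Agent.W669.HD Finset

variable {V : Type*} [NormedAddCommGroup V] [InnerProductSpace ℝ V]

/-- expansion in three functionals -/
theorem three_expand {a : V →ₗ[ℝ] V →ₗ[ℝ] ℝ} (ha : Sy a) (f g h : V → ℝ) (p q r : V)
    (hf : ∀ v w, a v w = f v * f w * a p p + g v * g w * a q q + h v * h w * a r r +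
      (f v * g w + g v * f w) * a p q + (f v * h w + h v * f w) * a p r +
      (g v * h w + h v * g w) * a q r) (v w v' w' : V) :
    kb a a v w v' w' =
      (f v * g w - g v * f w) * (f v' * g w' - g v' * f w') * kb a a p q p q +
      (f v * h w - h v * f w) * (f v' * h w' - h v' * f w') * kb a a p r p r +
      (g v * h w - h v * g w) * (g v' * h w' - h v' * g w') * kb a a q r q r +
      ((f v * g w - g v * f w) * (f v' * h w' - h v' * f w') +
        (f v * h w - h v * f w) * (f v' * g w' - g v' * f w')) * kb a a p q p r +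
      ((f v * g w - g v * f w) * (g v' * h w' - h v' * g w') +
        (g v * h w - h v * g w) * (f v' * g w' - g v' * f w')) * kb a a p q q r +
      ((f v * h w - h v * f w) * (g v' * h w' - h v' * g w') +
        (g v * h w - h v * g w) * (f v' * h w' - h v' * f w')) * kb a a p r q r := by
  simp only [kb_def]
  rw [hf v v', hf w w', hf v w', hf w v', ha q p, ha r p, ha r q]
  ring

/-- the three dimensional case -/
theorem three_op {a b : V →ₗ[ℝ] V →ₗ[ℝ] ℝ} (ha : Sy a) (hb : Sy b)
    (hK : ∀ x y, kb a a x y x y + kb b b x y x y ≤ 0) (f g h : V → ℝ) (p q r : V)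
    (hfa : ∀ v w, a v w = f v * f w * a p p + g v * g w * a q q + h v * h w * a r r +
      (f v * g w + g v * f w) * a p q + (f v * h w + h v * f w) * a p r +
      (g v * h w + h v * g w) * a q r)
    (hfb : ∀ v w, b v w = f v * f w * b p p + g v * g w * b q q + h v * h w * b r r +
      (f v * g w + g v * f w) * b p q + (f v * h w + h v * f w) * b p r +
      (g v * h w + h v * g w) * b q r) :
    OpNonneg fun x y z w => -(kb a a x y z w + kb b b x y z w) := by
  intro n x y
  set P := ∑ i, (f (x i) * g (y i) - g (x i) * f (y i)) with hP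
  set Q := ∑ i, (f (x i) * h (y i) - h (x i) * f (y i)) with hQ
  set S := ∑ i, (g (x i) * h (y i) - h (x i) * g (y i)) with hS
  have hsum : ∀ {c : V →ₗ[ℝ] V →ₗ[ℝ] ℝ}, Sy c →
      (∀ v w, c v w = f v * f w * c p p + g v * g w * c q q + h v * h w * c r r +
      (f v * g w + g v * f w) * c p q + (f v * h w + h v * f w) * c p r +
      (g v * h w + h v * g w) * c q r) →
      ∑ i, ∑ j, kb c c (x i) (y i) (x j) (y j) = P * P * kb c c p q p q + Q * Q * kb c c p r p r +
        S * S * kb c c q r q r + (P * Q + Q * P) * kb c c p q p r +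
        (P * S + S * P) * kb c c p q q r + (Q * S + S * Q) * kb c c p r q r := by
    intro c hc hfc
    have h2 : ∀ (F G : Fin n → ℝ) (k : ℝ), ∑ i, ∑ j, F i * G j * k =
        (∑ i, F i) * (∑ j, G j) * k := by
      intro F G k
      rw [Finset.sum_mul_sum, Finset.sum_mul]
      exact Finset.sum_congr rfl fun i _ => (Finset.sum_mul _ _ _).symm
    have h3 : ∀ (F G F' G' : Fin n → ℝ) (k : ℝ), ∑ i, ∑ j, (F i * G j + F' i * G' j) * k =
        ((∑ i, F i) * (∑ j, G j) + (∑ i, F' i) * (∑ j, G' j)) * k := by
      intro F G F' G' k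
      simp only [add_mul, Finset.sum_add_distrib, h2]
    rw [Finset.sum_congr rfl fun i _ => Finset.sum_congr rfl fun j _ =>
      three_expand hc f g h p q r hfc (x i) (y i) (x j) (y j)]
    simp only [Finset.sum_add_distrib]
    rw [h2, h2, h2, h3, h3, h3]
  have htot : ∑ i, ∑ j, -(kb a a (x i) (y i) (x j) (y j) + kb b b (x i) (y i) (x j) (y j)) =
      -((∑ i, ∑ j, kb a a (x i) (y i) (x j) (y j)) +
        ∑ i, ∑ j, kb b b (x i) (y i) (x j) (y j)) := by
    simp only [Finset.sum_neg_distrib, Finset.sum_add_distrib]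
  rw [htot, hsum ha hfa, hsum hb hfb]
  by_cases hP0 : P = 0
  · have h1 := hK (Q • p + S • q) r
    have e1 : ∀ {c : V →ₗ[ℝ] V →ₗ[ℝ] ℝ}, Sy c → kb c c (Q • p + S • q) r (Q • p + S • q) r =
        P * P * kb c c p q p q + Q * Q * kb c c p r p r +
        S * S * kb c c q r q r + (P * Q + Q * P) * kb c c p q p r +
        (P * S + S * P) * kb c c p q q r + (Q * S + S * Q) * kb c c p r q r := by
      intro c hc
      rw [hP0]
      simp only [kb_def, map_add, map_smul, LinearMap.add_apply, LinearMap.smul_apply, smul_eq_mul]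
      rw [hc q p, hc r p, hc r q]
      ring
    rw [e1 ha, e1 hb] at h1
    linarith
  · have h1 := hK (P • p - S • r) (P • q + Q • r)
    have e1 : ∀ {c : V →ₗ[ℝ] V →ₗ[ℝ] ℝ}, Sy c →
        kb c c (P • p - S • r) (P • q + Q • r) (P • p - S • r) (P • q + Q • r) =
        P ^ 2 * (P * P * kb c c p q p q + Q * Q * kb c c p r p r +
        S * S * kb c c q r q r + (P * Q + Q * P) * kb c c p q p r +
        (P * S + S * P) * kb c c p q q r + (Q * S + S * Q) * kb c c p r q r) := by
      intro c hc
      simp only [kb_def, map_add, map_sub, map_smul, LinearMap.add_apply, LinearMap.sub_apply,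
        LinearMap.smul_apply, smul_eq_mul]
      rw [hc q p, hc r p, hc r q]
      ring
    rw [e1 ha, e1 hb, ← mul_add] at h1
    have h2 : 0 < P ^ 2 := by positivity
    by_contra hc
    push Not at hc
    have := mul_pos h2 (neg_pos.mpr hc)
    linarith

section steps

variable {a b : V →ₗ[ℝ] V →ₗ[ℝ] ℝ}

theorem asym (ha : Sy a) (hb : Sy b) (hK : ∀ x y, kb a a x y x y + kb b b x y x y ≤ 0)
    {x u : V} (h1 : a x x = 0) (h2 : b x x = 0) (h3 : a x u = 0) (h4 : b x u = 0) (y : V) :
    a x y * a u u + b x y * b u u = 0 := by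
  have h := lin0 (L := 4 * (a x y * a u u + b x y * b u u))
    (M := kb a a y u y u + kb b b y u y u) fun t => by
      have := hK (x + t • y) u
      simp only [kb_def, map_add, map_smul, LinearMap.add_apply, LinearMap.smul_apply,
        smul_eq_mul] at this
      rw [ha u x, hb u x, h1, h2, h3, h4, ha y x, hb y x] at this
      rw [kb_def, kb_def]
      nlinarith [this]
  linarith

theorem second (ha : Sy a) (hb : Sy b) (hK : ∀ x y, kb a a x y x y + kb b b x y x y ≤ 0)
    {x y : V} (h1 : a x x = 0) (h2 : b x x = 0) (h3 : a x y = 0) (h4 : b x y = 0)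
    (h5 : a y y = 0) (h6 : b y y = 0) (z w : V) :
    4 * (a x z * a y w + b x z * b y w) ≤ (a x w + a y z) ^ 2 + (b x w + b y z) ^ 2 := by
  have h := lim0 (A := (a x w + a y z) ^ 2 + (b x w + b y z) ^ 2 -
      4 * (a x z * a y w + b x z * b y w))
    (B := -(2 * (a x z * a w w + a y w * a z z - (a x w + a y z) * a z w) +
      2 * (b x z * b w w + b y w * b z z - (b x w + b y z) * b z w)))
    (C := -((a z z * a w w - a z w ^ 2) + (b z z * b w w - b z w ^ 2))) fun t ht => by
      have h7 := hK (x + t • z) (y + t • w)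
      have e1 : kb a a (x + t • z) (y + t • w) (x + t • z) (y + t • w) +
          kb b b (x + t • z) (y + t • w) (x + t • z) (y + t • w) =
          -(2 * t ^ 2 * ((a x w + a y z) ^ 2 + (b x w + b y z) ^ 2 -
      4 * (a x z * a y w + b x z * b y w) +
      t * (-(2 * (a x z * a w w + a y w * a z z - (a x w + a y z) * a z w) +
      2 * (b x z * b w w + b y w * b z z - (b x w + b y z) * b z w))) +
      t ^ 2 * (-((a z z * a w w - a z w ^ 2) + (b z z * b w w - b z w ^ 2))))) := by
        simp only [kb_def, map_add, map_smul, LinearMap.add_apply, LinearMap.smul_apply,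
          smul_eq_mul]
        rw [ha y x, hb y x, ha z x, hb z x, ha w y, hb w y, ha z y, hb z y, ha w x, hb w x,
          ha w z, hb w z, h1, h2, h3, h4, h5, h6]
        ring
      rw [e1] at h7
      have h8 : 0 < 2 * t ^ 2 := by positivity
      by_contra hc
      push Not at hc
      have := mul_neg_of_pos_of_neg h8 hc
      linarith
  linarith

variable {ι : Type*} [Fintype ι] [DecidableEq ι]

/-- an asymptotic vector of rank one, normalised -/
theorem rank_one (e : OrthonormalBasis ι ℝ V) (ha : Sy a) (hb : Sy b)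
    (hK : ∀ x y, kb a a x y x y + kb b b x y x y ≤ 0)
    {x c : V} (h1 : a x x = 0) (h2 : ∀ v, b x v = 0) (h3 : a x c = 1) :
    OpNonneg fun x y z w => -(kb a a x y z w + kb b b x y z w) := by
  have k1 : ∀ u, a x u = 0 → a u u = 0 := by
    intro u hu
    have := asym ha hb hK h1 (h2 x) hu (h2 u) c
    rw [h3, h2] at this
    linarith
  have k2 : ∀ u v, a x u = 0 → a x v = 0 → a u v = 0 := by
    intro u v hu hv
    have := k1 (u + v) (by rw [map_add, hu, hv, add_zero])
    simp only [map_add, LinearMap.add_apply] at this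
    rw [k1 u hu, k1 v hv, ha v u] at this
    linarith
  set l : V → ℝ := fun v => a c v - a c c / 2 * a x v with hl
  have k3 : ∀ v w, a v w = a x v * l w + l v * a x w := by
    intro v w
    have := k2 (v - a x v • c) (w - a x w • c)
      (by simp only [map_sub, map_smul, smul_eq_mul, h3]; ring)
      (by simp only [map_sub, map_smul, smul_eq_mul, h3]; ring)
    simp only [map_sub, map_smul, LinearMap.sub_apply, LinearMap.smul_apply, smul_eq_mul] at this
    rw [ha v c] at this
    simp only [hl]
    linarith
  have k4 : ∀ v w v' w', kb a a v w v' w' =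
      -(2 * ((a x v * l w - a x w * l v) * (a x v' * l w' - a x w' * l v'))) := by
    intro v w v' w'
    rw [kb_def, k3 v v', k3 w w', k3 v w', k3 w v']
    ring
  have k5 : OpNonneg fun x y z w => -kb a a x y z w := by
    intro n u v
    simp only [k4, neg_neg, ← Finset.mul_sum]
    rw [← Finset.sum_mul]
    exact mul_nonneg (by norm_num) (mul_self_nonneg _)
  have hlx : l x = 1 := by
    simp only [hl]
    rw [ha c x, h3, h1]; ring
  have k6 : ∀ v w, kb b b v w v w ≤ 0 := by
    intro v w
    have inv : ∀ s r : ℝ, kb b b (v + s • x) (w + r • x) (v + s • x) (w + r • x) =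
        kb b b v w v w := by
      intro s r
      simp only [kb_def, map_add, map_smul, LinearMap.add_apply, LinearMap.smul_apply, smul_eq_mul]
      rw [hb v x, hb w x]
      simp only [h2]
      ring
    have go : ∀ s r : ℝ, a x v * (l w + r) - a x w * (l v + s) = 0 → kb b b v w v w ≤ 0 := by
      intro s r hsr
      have h7 := hK (v + s • x) (w + r • x)
      rw [inv, k4] at h7
      have h8 : a x (v + s • x) * l (w + r • x) - a x (w + r • x) * l (v + s • x) = 0 := by
        have e1 : ∀ (v : V) (s : ℝ), l (v + s • x) = l v + s := by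
          intro v s
          have : l (v + s • x) = l v + s * l x := by
            simp only [hl, map_add, map_smul, smul_eq_mul]; ring
          rw [this, hlx, mul_one]
        have e2 : ∀ (v : V) (s : ℝ), a x (v + s • x) = a x v := by
          intro v s
          simp only [map_add, map_smul, smul_eq_mul, h1]; ring
        rw [e1, e1, e2, e2]
        exact hsr
      rw [h8] at h7
      linarith
    by_cases hv : a x v = 0
    · by_cases hw : a x w = 0
      · exact go 0 0 (by rw [hv, hw]; ring)
      · exact go ((a x v * l w - a x w * l v) / a x w) 0 (by field_simp; ring)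
    · exact go 0 (-(a x v * l w - a x w * l v) / a x v) (by field_simp; ring)
  have k7 := lor_op e hb hb k6
  refine op_congr (fun x y z w => ?_) (op_add k5 k7)
  ring

/-- an asymptotic vector of rank one -/
theorem rank_one' (e : OrthonormalBasis ι ℝ V) (ha : Sy a) (hb : Sy b)
    (hK : ∀ x y, kb a a x y x y + kb b b x y x y ≤ 0)
    {x c : V} {u1 u2 : ℝ} (h1 : a x x = 0) (h2 : b x x = 0) (h3 : ∀ v, u2 * a x v = u1 * b x v)
    (h4 : u1 * a x c + u2 * b x c ≠ 0) :
    OpNonneg fun x y z w => -(kb a a x y z w + kb b b x y z w) := by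
  have hu : 0 < u1 ^ 2 + u2 ^ 2 := by
    by_contra hc
    push Not at hc
    have e1 : u1 = 0 := by nlinarith [sq_nonneg u1, sq_nonneg u2]
    have e2 : u2 = 0 := by nlinarith [sq_nonneg u1, sq_nonneg u2]
    exact h4 (by rw [e1, e2]; ring)
  have hsa : Sy (u1 • a + u2 • b) := fun x y => by
    simp only [LinearMap.add_apply, LinearMap.smul_apply, smul_eq_mul]
    rw [ha x y, hb x y]
  have hsb : Sy (u1 • b - u2 • a) := fun x y => by
    simp only [LinearMap.sub_apply, LinearMap.smul_apply, smul_eq_mul]
    rw [ha x y, hb x y]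
  have key : ∀ x y z w, kb (u1 • a + u2 • b) (u1 • a + u2 • b) x y z w +
      kb (u1 • b - u2 • a) (u1 • b - u2 • a) x y z w =
      (u1 ^ 2 + u2 ^ 2) * (kb a a x y z w + kb b b x y z w) := by
    intro x y z w
    simp only [kb_def, LinearMap.add_apply, LinearMap.sub_apply, LinearMap.smul_apply,
      smul_eq_mul]
    ring
  have h := rank_one e hsa hsb (fun x y => by
      rw [key]
      exact mul_nonpos_of_nonneg_of_nonpos hu.le (hK x y)) (x := x)
    (c := (1 / (u1 * a x c + u2 * b x c)) • c)
    (by
      simp only [LinearMap.add_apply, LinearMap.smul_apply, smul_eq_mul]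
      rw [h1, h2]; ring)
    (fun v => by
      simp only [LinearMap.sub_apply, LinearMap.smul_apply, smul_eq_mul]
      rw [h3 v]; ring)
    (by
      simp only [LinearMap.add_apply, LinearMap.smul_apply, map_smul, smul_eq_mul]
      field_simp)
  refine op_congr (fun x y z w => ?_)
    (op_smul (c := 1 / (u1 ^ 2 + u2 ^ 2)) (by positivity) h)
  simp only [key]
  field_simp

/-- an asymptotic vector of rank two -/
theorem rank_two (e : OrthonormalBasis ι ℝ V) (ha : Sy a) (hb : Sy b)
    (hK : ∀ x y, kb a a x y x y + kb b b x y x y ≤ 0)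
    {x c1 c2 : V} (h1 : a x x = 0) (h2 : b x x = 0) (h3 : a x c1 = 1) (h4 : b x c1 = 0)
    (h5 : a x c2 = 0) (h6 : b x c2 = 1) :
    OpNonneg fun x y z w => -(kb a a x y z w + kb b b x y z w) := by
  have k1 : ∀ u, a x u = 0 → b x u = 0 → a u u = 0 ∧ b u u = 0 := by
    intro u hu hu'
    have e1 := asym ha hb hK h1 h2 hu hu' c1
    have e2 := asym ha hb hK h1 h2 hu hu' c2
    rw [h3, h4] at e1
    rw [h5, h6] at e2
    exact ⟨by linarith, by linarith⟩
  have k2 : ∀ u v, a x u = 0 → b x u = 0 → a x v = 0 → b x v = 0 → a u v = 0 ∧ b u v = 0 := by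
    intro u v hu hu' hv hv'
    have := k1 (u + v) (by rw [map_add, hu, hv, add_zero]) (by rw [map_add, hu', hv', add_zero])
    simp only [map_add, LinearMap.add_apply] at this
    rw [(k1 u hu hu').1, (k1 u hu hu').2, (k1 v hv hv').1, (k1 v hv hv').2, ha v u, hb v u] at this
    exact ⟨by linarith [this.1], by linarith [this.2]⟩
  -- the part in `N`
  have r1 : ∀ v, a x (v - (a x v • c1 + b x v • c2)) = 0 := by
    intro v
    simp only [map_sub, map_add, map_smul, smul_eq_mul, h3, h5]; ring
  have r2 : ∀ v, b x (v - (a x v • c1 + b x v • c2)) = 0 := by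
    intro v
    simp only [map_sub, map_add, map_smul, smul_eq_mul, h4, h6]; ring
  by_cases H : ∀ y, a x y = 0 → b x y = 0 → ∃ t : ℝ, ∀ v, a (y - t • x) v = 0 ∧ b (y - t • x) v = 0
  · -- three dimensional
    set F : V → ℝ := fun v => a v c1 - a x v * a c1 c1 - b x v * a c2 c1 with hF
    have key : ∀ v w, a v w = F v * a x w + a x v * a c1 w + b x v * a c2 w ∧
        b v w = F v * b x w + a x v * b c1 w + b x v * b c2 w := by
      intro v w
      obtain ⟨t, ht⟩ := H _ (r1 v) (r2 v)
      have ht1 := (ht c1).1
      simp only [map_sub, map_add, map_smul, LinearMap.sub_apply, LinearMap.add_apply,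
        LinearMap.smul_apply, smul_eq_mul, h3] at ht1
      have ht2 : t = F v := by simp only [hF]; linarith
      have ht3 := (ht w).1
      have ht4 := (ht w).2
      simp only [map_sub, map_add, map_smul, LinearMap.sub_apply, LinearMap.add_apply,
        LinearMap.smul_apply, smul_eq_mul, ht2] at ht3 ht4
      exact ⟨by linarith, by linarith⟩
    refine three_op ha hb hK F (fun v => a x v) (fun v => b x v) x c1 c2 ?_ ?_
    · intro v w
      rw [(key v w).1, ha c1 w, (key w c1).1, ha c2 w, (key w c2).1, h1, h3, h5, ha c2 c1]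
      ring
    · intro v w
      rw [(key v w).2, hb c1 w, (key w c1).2, hb c2 w, (key w c2).2, h2, h4, h6, hb c2 c1]
      ring
  · push Not at H
    obtain ⟨y, hy1, hy2, hy⟩ := H
    set p := a y c1 with hp
    set q := a y c2 with hq
    set r := b y c1 with hr
    set t := b y c2 with ht
    have nonneg : 0 ≤ ((p - t) / 2) ^ 2 + r * q := by
      have e1 : a x (y - ((p + t) / 2) • x) = 0 := by
        simp only [map_sub, map_smul, smul_eq_mul, h1, hy1]; ring
      have e2 : b x (y - ((p + t) / 2) • x) = 0 := by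
        simp only [map_sub, map_smul, smul_eq_mul, h2, hy2]; ring
      have h7 := second ha hb hK h1 h2 e1 e2 (k1 _ e1 e2).1 (k1 _ e1 e2).2 c1
        (-(((p - t) / 2) • c1 + r • c2))
      simp only [map_sub, map_add, map_neg, map_smul, LinearMap.sub_apply,
        LinearMap.smul_apply, smul_eq_mul, h3, h4, h5, h6] at h7
      rw [← hp, ← hq, ← hr] at h7
      nlinarith [h7]
    set ρ := Real.sqrt (((p - t) / 2) ^ 2 + r * q) with hρ
    have hρ2 : ρ ^ 2 = ((p - t) / 2) ^ 2 + r * q := Real.sq_sqrt nonneg
    obtain ⟨v1, hv1⟩ := hy ((p + t) / 2 + ρ)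
    set y' := y - ((p + t) / 2 + ρ) • x with hy'
    have e1 : a x y' = 0 := by
      simp only [hy', map_sub, map_smul, smul_eq_mul, h1, hy1]; ring
    have e2 : b x y' = 0 := by
      simp only [hy', map_sub, map_smul, smul_eq_mul, h2, hy2]; ring
    have fa : ∀ v, a y' v = a x v * ((p - t) / 2 - ρ) + b x v * q := by
      intro v
      have := (k2 _ _ e1 e2 (r1 v) (r2 v)).1
      simp only [map_sub, map_add, map_smul, smul_eq_mul] at this
      have g1 : a y' c1 = (p - t) / 2 - ρ := by
        simp only [hy', map_sub, map_smul, LinearMap.sub_apply, LinearMap.smul_apply, smul_eq_mul,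
          h3, ← hp]; ring
      have g2 : a y' c2 = q := by
        simp only [hy', map_sub, map_smul, LinearMap.sub_apply, LinearMap.smul_apply, smul_eq_mul,
          h5, ← hq]; ring
      rw [g1, g2] at this
      linarith
    have fb : ∀ v, b y' v = a x v * r + b x v * (-(p - t) / 2 - ρ) := by
      intro v
      have := (k2 _ _ e1 e2 (r1 v) (r2 v)).2
      simp only [map_sub, map_add, map_smul, smul_eq_mul] at this
      have g1 : b y' c1 = r := by
        simp only [hy', map_sub, map_smul, LinearMap.sub_apply, LinearMap.smul_apply, smul_eq_mul,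
          h4, ← hr]; ring
      have g2 : b y' c2 = -(p - t) / 2 - ρ := by
        simp only [hy', map_sub, map_smul, LinearMap.sub_apply, LinearMap.smul_apply, smul_eq_mul,
          h6, ← ht]; ring
      rw [g1, g2] at this
      linarith
    refine rank_one' e ha hb hK (x := y') (c := v1) (u1 := a y' v1) (u2 := b y' v1)
      (k1 _ e1 e2).1 (k1 _ e1 e2).2 (fun v => ?_) ?_
    · rw [fa, fb, fa, fb]
      linear_combination (a x v1 * b x v - b x v1 * a x v) * (-hρ2)
    · intro h0
      have g1 : a y' v1 = 0 := by nlinarith [sq_nonneg (a y' v1), sq_nonneg (b y' v1)]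
      have g2 : b y' v1 = 0 := by nlinarith [sq_nonneg (a y' v1), sq_nonneg (b y' v1)]
      exact hv1 g1 g2

end steps

/-- a complement of dimension at most two -/
theorem exists_two {V : Type*} [NormedAddCommGroup V] [InnerProductSpace ℝ V]
    [FiniteDimensional ℝ V] (T : Submodule ℝ V)
    (h : Module.finrank ℝ V ≤ Module.finrank ℝ T + 2) :
    ∃ (p q : V) (f g : V → ℝ), ∀ v, v - (f v • p + g v • q) ∈ T := by
  have h1 := Submodule.finrank_quotient_add_finrank T
  have h2 : Module.finrank ℝ (V ⧸ T) = 0 ∨ Module.finrank ℝ (V ⧸ T) = 1 ∨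
      Module.finrank ℝ (V ⧸ T) = 2 := by omega
  rcases h2 with h2 | h2 | h2
  · refine ⟨0, 0, fun _ => 0, fun _ => 0, fun v => ?_⟩
    have h3 : Subsingleton (V ⧸ T) := Module.finrank_zero_iff.mp h2
    have h4 : (Submodule.Quotient.mk v : V ⧸ T) = 0 := Subsingleton.elim _ _
    rw [Submodule.Quotient.mk_eq_zero] at h4
    simpa using h4
  · obtain ⟨w, -, hw⟩ := finrank_eq_one_iff'.mp h2
    obtain ⟨p, rfl⟩ := Submodule.Quotient.mk_surjective T w
    choose f hf using fun v : V => hw (Submodule.Quotient.mk v)
    refine ⟨p, 0, f, fun _ => 0, fun v => ?_⟩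
    rw [← Submodule.Quotient.mk_eq_zero, Submodule.Quotient.mk_sub, sub_eq_zero]
    rw [Submodule.Quotient.mk_add, Submodule.Quotient.mk_smul, hf v]
    simp
  · set B := Module.finBasisOfFinrankEq ℝ (V ⧸ T) h2 with hB
    obtain ⟨p, hp⟩ := Submodule.Quotient.mk_surjective T (B 0)
    obtain ⟨q, hq⟩ := Submodule.Quotient.mk_surjective T (B 1)
    refine ⟨p, q, fun v => B.repr (Submodule.Quotient.mk v) 0,
      fun v => B.repr (Submodule.Quotient.mk v) 1, fun v => ?_⟩
    rw [← Submodule.Quotient.mk_eq_zero, Submodule.Quotient.mk_sub, sub_eq_zero,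
      Submodule.Quotient.mk_add, Submodule.Quotient.mk_smul, Submodule.Quotient.mk_smul, hp, hq]
    have := B.sum_repr (Submodule.Quotient.mk v)
    rw [Fin.sum_univ_two] at this
    exact this.symm

/-- **Positive definite normal metric**: nonpositive extrinsic curvature implies that the
operator is nonpositive. -/
theorem pos_op {V : Type} [NormedAddCommGroup V] [InnerProductSpace ℝ V] {ι : Type*} [Fintype ι]
    [DecidableEq ι] (e : OrthonormalBasis ι ℝ V) {a b : V →ₗ[ℝ] V →ₗ[ℝ] ℝ} (ha : Sy a) (hb : Sy b)
    (hK : ∀ x y, kb a a x y x y + kb b b x y x y ≤ 0) :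
    OpNonneg fun x y z w => -(kb a a x y z w + kb b b x y z w) := by
  have hfin : FiniteDimensional ℝ V := e.toBasis.finiteDimensional_of_finite
  by_cases H : ∀ x, a x x = 0 → b x x = 0 → ∀ v, a x v = 0 ∧ b x v = 0
  · -- Otsuki
    set β : V →ₗ[ℝ] V →ₗ[ℝ] ℂ := LinearMap.mk₂ ℝ (fun x y => (⟨a x y, b x y⟩ : ℂ))
      (fun x x' y => by apply Complex.ext <;> simp)
      (fun c x y => by apply Complex.ext <;> simp)
      (fun x y y' => by apply Complex.ext <;> simp)
      (fun c x y => by apply Complex.ext <;> simp) with hβ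
    have hβ' : ∀ x y, β x y = ⟨a x y, b x y⟩ := fun x y => rfl
    obtain ⟨T, -, hT, hTd⟩ := Pool.Agent.Y489.SM.exists_asym β
      (fun x y => by rw [hβ', hβ', ha x y, hb x y])
      (fun x y => by
        have := hK x y
        rw [kb_sec ha ha, kb_sec hb hb] at this
        rw [hβ', hβ', hβ', Complex.inner, Complex.sq_norm, Complex.normSq_apply]
        simp only [Complex.mul_re, Complex.conj_re, Complex.conj_im]
        nlinarith)
      (Module.finrank ℝ V) ⊤ (finrank_top ℝ V) ⊤ (fun _ _ _ _ => Submodule.mem_top)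
    rw [finrank_top, finrank_top, Complex.finrank_real_complex] at hTd
    have hker : ∀ k ∈ T, ∀ v, a k v = 0 ∧ b k v = 0 := by
      intro k hk v
      have h1 := hT k hk k hk
      rw [hβ'] at h1
      have h2 := congrArg Complex.re h1
      have h3 := congrArg Complex.im h1
      simp only [Complex.zero_re, Complex.zero_im] at h2 h3
      exact H k h2 h3 v
    obtain ⟨p, q, f, g, hfg⟩ := exists_two T hTd
    have key : ∀ v w, a v w = f v * a p w + g v * a q w ∧ b v w = f v * b p w + g v * b q w := by
      intro v w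
      have h1 := hker _ (hfg v) w
      simp only [map_sub, map_add, map_smul, LinearMap.sub_apply, LinearMap.add_apply,
        LinearMap.smul_apply, smul_eq_mul] at h1
      exact ⟨by linarith [h1.1], by linarith [h1.2]⟩
    refine three_op ha hb hK f g (fun _ => 0) p q 0 ?_ ?_
    · intro v w
      rw [(key v w).1, ha p w, (key w p).1, ha q w, (key w q).1, ha q p]
      simp only [map_zero]
      ring
    · intro v w
      rw [(key v w).2, hb p w, (key w p).2, hb q w, (key w q).2, hb q p]
      simp only [map_zero]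
      ring
  · push Not at H
    obtain ⟨x, h1, h2, v1, hv1⟩ := H
    by_cases hd : ∀ v w, a x v * b x w - a x w * b x v = 0
    · refine rank_one' e ha hb hK (x := x) (c := v1) (u1 := a x v1) (u2 := b x v1) h1 h2
        (fun v => by linarith [hd v v1]) fun h0 => ?_
      have g1 : a x v1 = 0 := by nlinarith [sq_nonneg (a x v1), sq_nonneg (b x v1)]
      have g2 : b x v1 = 0 := by nlinarith [sq_nonneg (a x v1), sq_nonneg (b x v1)]
      exact hv1 g1 g2
    · push Not at hd
      obtain ⟨v, w, hD⟩ := hd
      set D := a x v * b x w - a x w * b x v with hDdef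
      refine rank_two e ha hb hK (x := x) (c1 := (1 / D) • (b x w • v - b x v • w))
        (c2 := (1 / D) • (a x v • w - a x w • v)) h1 h2 ?_ ?_ ?_ ?_
      · simp only [map_sub, map_smul, smul_eq_mul]
        rw [one_div, inv_mul_eq_div, div_eq_one_iff_eq hD, hDdef]
        ring
      · simp only [map_sub, map_smul, smul_eq_mul]
        ring
      · simp only [map_sub, map_smul, smul_eq_mul]
        ring
      · simp only [map_sub, map_smul, smul_eq_mul]
        rw [one_div, inv_mul_eq_div, div_eq_one_iff_eq hD]

/-- **Codimension two, any signature**: if the extrinsic sectional curvatures are nonpositive,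
then the extrinsic curvature operator is nonpositive. -/
theorem codim_two_op {V : Type} [NormedAddCommGroup V] [InnerProductSpace ℝ V] {ι : Type*}
    [Fintype ι] [DecidableEq ι] (e : OrthonormalBasis ι ℝ V) {a b : V →ₗ[ℝ] V →ₗ[ℝ] ℝ}
    (ha : Sy a) (hb : Sy b) (q11 q12 q22 : ℝ)
    (hK : ∀ x y, gq q11 q12 q22 (fun x y => a x y) (fun x y => b x y) x y x y ≤ 0) :
    OpNonneg fun x y z w => -gq q11 q12 q22 (fun x y => a x y) (fun x y => b x y) x y z w := by
  by_cases hq : q11 ≤ 0 ∨ q11 * q22 ≤ q12 ^ 2
  · exact gq_op e ha hb q11 q12 q22 hq hK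
  · push Not at hq
    obtain ⟨h11, hD⟩ := hq
    set s := Real.sqrt (q11 * q22 - q12 ^ 2) with hs
    have hs2 : s ^ 2 = q11 * q22 - q12 ^ 2 := Real.sq_sqrt (by linarith)
    have hs1 : Sy (q11 • a + q12 • b) := fun x y => by
      simp only [LinearMap.add_apply, LinearMap.smul_apply, smul_eq_mul]
      rw [ha x y, hb x y]
    have hs1' : Sy (s • b) := fun x y => by
      simp only [LinearMap.smul_apply, smul_eq_mul]
      rw [hb x y]
    have key : ∀ x y z w, kb (q11 • a + q12 • b) (q11 • a + q12 • b) x y z w +
        kb (s • b) (s • b) x y z w =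
        (2 * q11) * gq q11 q12 q22 (fun x y => a x y) (fun x y => b x y) x y z w := by
      intro x y z w
      simp only [gq, kb_def, LinearMap.add_apply, LinearMap.smul_apply, smul_eq_mul]
      linear_combination (2 * (b x z * b y w) - 2 * (b x w * b y z)) * hs2
    have h := pos_op e hs1 hs1' (fun x y => by
      rw [key]
      exact mul_nonpos_of_nonneg_of_nonpos (by linarith) (hK x y))
    refine op_congr (fun x y z w => ?_) (op_smul (c := 1 / (2 * q11))
      (by positivity) h)
    simp only [key]
    field_simp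

end Pool.Agent.R537.LK
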